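import Mathlib

/-!
# The lines of the affine plane: neighbourhoods of maximal energy, `n^(3/2)` edges
-/

set_option autoImplicit false
set_option linter.unusedSectionVars false
set_option linter.unusedVariables false

namespace Run7.h50.EN

open Finset

/-- vertices: points (false) and lines (true) -/
abbrev PV (q : ℕ) : Type := Bool × ZMod q × ZMod q

/-- incidence -/
def inc {q : ℕ} (u w : PV q) : Prop :=
  (u.1 = false ∧ w.1 = true ∧ u.2.2 = w.2.1 * u.2.1 + w.2.2) ∨
  (u.1 = true ∧ w.1 = false ∧ w.2.2 = u.2.1 * w.2.1 + u.2.2)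

/-- the incidence graph of points and non-vertical lines -/
def PG (q : ℕ) : SimpleGraph (PV q) where
  Adj := inc
  symm := ⟨fun u w h => by
    rcases h with ⟨h1, h2, h3⟩ | ⟨h1, h2, h3⟩
    · exact Or.inr ⟨h2, h1, h3⟩
    · exact Or.inl ⟨h2, h1, h3⟩⟩
  loopless := ⟨fun u h => by
    rcases h with ⟨h1, h2, h3⟩ | ⟨h1, h2, h3⟩ <;> simp [h1] at h2⟩

/-- the labels -/
def plab (r q : ℕ) (u : PV q) : ZMod r × ZMod q × ZMod q := (if u.1 then 1 else 0, u.2)

theorem plab_inj (r q : ℕ) (hr : 2 ≤ r) : Function.Injective (plab r q) := by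
  have : Fact (1 < r) := ⟨by omega⟩
  intro u w h
  unfold plab at h
  have h1 := congrArg Prod.fst h
  have h2 := congrArg Prod.snd h
  simp only at h1 h2
  refine Prod.ext ?_ h2
  rcases hu : u.1 with _ | _ <;> rcases hw : w.1 with _ | _ <;> simp [hu, hw] at h1 ⊢

/-- the neighbours of `u`, parametrised -/
def pn {q : ℕ} (u : PV q) (m : ZMod q) : PV q :=
  if u.1 then (false, m, u.2.1 * m + u.2.2) else (true, m, u.2.2 - m * u.2.1)

theorem pn_inj {q : ℕ} (u : PV q) : Function.Injective (pn u) := by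
  intro m m' h
  unfold pn at h
  split_ifs at h <;> exact congrArg (fun w => w.2.1) h

theorem adj_iff {q : ℕ} (u w : PV q) : (PG q).Adj u w ↔ ∃ m, pn u m = w := by
  show inc u w ↔ _
  unfold inc pn
  obtain ⟨b, x, y⟩ := u
  obtain ⟨b', x', y'⟩ := w
  cases b <;> cases b' <;> simp only [Bool.false_eq_true, if_false, if_true, false_and, and_false,
    true_and, false_or, or_false, Prod.mk.injEq, Bool.true_eq_false, exists_false]
  · constructor
    · intro h
      exact ⟨x', rfl, by rw [h]; ring⟩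
    · rintro ⟨m, rfl, h⟩
      rw [← h]; ring
  · constructor
    · intro h
      exact ⟨x', rfl, h.symm⟩
    · rintro ⟨m, rfl, h⟩
      exact h.symm

/-- energy of affine images -/
theorem energy_affine {q : ℕ} [NeZero q] {Γ : Type} [AddCommGroup Γ] [DecidableEq Γ]
    (f : ZMod q → Γ) (hf : Function.Injective f) (ha : ∀ a b c, f a + f c = f b + f (a + c - b)) :
    q ^ 3 ≤ (univ.image f).addEnergy (univ.image f) := by
  classical
  have h1 : q ^ 3 = (univ : Finset (ZMod q × ZMod q × ZMod q)).card := by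
    rw [Finset.card_univ, Fintype.card_prod, Fintype.card_prod, ZMod.card]; ring
  rw [h1]
  unfold Finset.addEnergy
  refine Finset.card_le_card_of_injOn
    (fun z => ((f z.1, f z.2.1), (f z.2.2, f (z.1 + z.2.2 - z.2.1)))) ?_ ?_
  · intro z _
    refine Finset.mem_coe.2 (Finset.mem_filter.2 ⟨?_, ha _ _ _⟩)
    simp only [Finset.mem_product, Finset.mem_image, Finset.mem_univ, true_and]
    exact ⟨⟨⟨_, rfl⟩, ⟨_, rfl⟩⟩, ⟨_, rfl⟩, ⟨_, rfl⟩⟩
  · intro z _ z' _ h
    have e1 : f z.1 = f z'.1 := congrArg (fun w => w.1.1) h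
    have e2 : f z.2.1 = f z'.2.1 := congrArg (fun w => w.1.2) h
    have e3 : f z.2.2 = f z'.2.2 := congrArg (fun w => w.2.1) h
    exact Prod.ext (hf e1) (Prod.ext (hf e2) (hf e3))

theorem plab_pn_affine (r : ℕ) {q : ℕ} (u : PV q) (a b c : ZMod q) :
    plab r q (pn u a) + plab r q (pn u c) = plab r q (pn u b) + plab r q (pn u (a + c - b)) := by
  obtain ⟨x, m, y⟩ := u
  cases x
  · simp only [pn, plab, Bool.false_eq_true, if_false, if_true, Prod.mk_add_mk, Prod.mk.injEq,
      true_and]
    constructor <;> ring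
  · simp only [pn, plab, Bool.false_eq_true, if_false, if_true, Prod.mk_add_mk, Prod.mk.injEq,
      true_and]
    constructor <;> ring

theorem PG_free {q : ℕ} [Fact q.Prime] (s t : ℕ) (hs : 2 ≤ s) (ht : 2 ≤ t) :
    (completeBipartiteGraph (Fin s) (Fin t)).Free (PG q) := by
  rintro ⟨f⟩
  have hadj : ∀ (i : Fin s) (j : Fin t), (PG q).Adj (f (Sum.inl i)) (f (Sum.inr j)) := by
    intro i j
    exact f.toHom.map_adj (by simp)
  have hi := f.injective
  set u := f (Sum.inl ⟨0, by omega⟩) with hu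
  set u' := f (Sum.inl ⟨1, by omega⟩) with hu'
  set w := f (Sum.inr ⟨0, by omega⟩) with hw
  set w' := f (Sum.inr ⟨1, by omega⟩) with hw'
  have h1 : inc u w := hadj _ _
  have h2 : inc u w' := hadj _ _
  have h3 : inc u' w := hadj _ _
  have h4 : inc u' w' := hadj _ _
  have n1 : u ≠ u' := fun h => by
    have := hi h
    simp at this
  have n2 : w ≠ w' := fun h => by
    have := hi h
    simp at this
  clear_value u u' w w'
  obtain ⟨b1, x1, y1⟩ := u
  obtain ⟨b2, x2, y2⟩ := u'
  obtain ⟨c1, m1, l1⟩ := w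
  obtain ⟨c2, m2, l2⟩ := w'
  unfold inc at h1 h2 h3 h4
  cases b1 <;> cases b2 <;> cases c1 <;> cases c2 <;> simp at h1 h2 h3 h4
  · have e : (m1 - m2) * (x1 - x2) = 0 := by linear_combination (-1 : ZMod q) * h1 + h2 + h3 - h4
    rcases mul_eq_zero.1 e with h | h
    · have hm : m1 = m2 := sub_eq_zero.1 h
      subst hm
      apply n2
      rw [h1] at h2
      rw [add_left_cancel h2]
    · have hx : x1 = x2 := sub_eq_zero.1 h
      subst hx
      apply n1
      rw [h1, h3]
  · have e : (x1 - x2) * (m1 - m2) = 0 := by linear_combination (-1 : ZMod q) * h1 + h2 + h3 - h4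
    rcases mul_eq_zero.1 e with h | h
    · have hx : x1 = x2 := sub_eq_zero.1 h
      subst hx
      apply n1
      rw [h1] at h3
      rw [add_left_cancel h3]
    · have hm : m1 = m2 := sub_eq_zero.1 h
      subst hm
      apply n2
      rw [h1, h2]

/-- no small torsion in `ZMod r × ZMod q × ZMod q` -/
theorem zmod_torsion {q p : ℕ} [Fact q.Prime] (hq : p ≤ q) (g : ZMod q) (j : ℕ) (h0 : 0 < j)
    (hj : j < p) (h : j • g = 0) : g = 0 := by
  rw [nsmul_eq_mul] at h
  rcases mul_eq_zero.1 h with h | h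
  · rw [ZMod.natCast_eq_zero_iff] at h
    exact absurd (Nat.le_of_dvd h0 h) (by omega)
  · exact h

end Run7.h50.EN
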