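import Mathlib

/-!
# Croot-Sisask almost periodicity in the square mean, for arbitrary finite groups (written additively)
-/

set_option autoImplicit false
set_option linter.unusedSectionVars false
set_option linter.unusedVariables false

namespace Run7.h50.EN

open Finset
open scoped Pointwise

/-- second moment of sums of independent samples -/
theorem sample {α : Type*} [Fintype α] (h : α → ℝ) (h0 : ∑ a, h a = 0) (m : ℕ) :
    (∑ a : Fin m → α, ∑ i, h (a i)) = 0 ∧
    (∑ a : Fin m → α, (∑ i, h (a i)) ^ 2) * Fintype.card α =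
      m * (Fintype.card α : ℝ) ^ m * ∑ a, h a ^ 2 := by
  induction m with
  | zero => simp
  | succ m ih =>
    obtain ⟨ih1, ih2⟩ := ih
    have key : ∀ Φ : (Fin (m + 1) → α) → ℝ, ∑ a, Φ a = ∑ b : α, ∑ a : Fin m → α, Φ (Fin.cons b a) := by
      intro Φ
      rw [← (Fin.consEquiv (fun _ => α)).sum_comp, Fintype.sum_prod_type]
      rfl
    constructor
    · rw [key]
      simp only [Fin.sum_univ_succ, Fin.cons_zero, Fin.cons_succ]
      simp only [Finset.sum_add_distrib, ih1, add_zero, Finset.sum_const, nsmul_eq_mul]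
      rw [← Finset.mul_sum, h0, mul_zero]
    · rw [key]
      simp only [Fin.sum_univ_succ, Fin.cons_zero, Fin.cons_succ]
      have h1 : ∀ b : α, ∑ a : Fin m → α, (h b + ∑ i, h (a i)) ^ 2 =
          (Fintype.card α : ℝ) ^ m * h b ^ 2 + ∑ a : Fin m → α, (∑ i, h (a i)) ^ 2 := by
        intro b
        have : ∀ a : Fin m → α, (h b + ∑ i, h (a i)) ^ 2 =
            h b ^ 2 + 2 * h b * (∑ i, h (a i)) + (∑ i, h (a i)) ^ 2 := fun a => by ring
        simp only [this, Finset.sum_add_distrib, ← Finset.mul_sum, ih1, mul_zero, add_zero,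
          Finset.sum_const, nsmul_eq_mul]
        congr 2
        rw [Finset.card_univ, Fintype.card_fun, Fintype.card_fin]
        push_cast
        ring
      simp only [h1, Finset.sum_add_distrib, ← Finset.mul_sum, Finset.sum_const, nsmul_eq_mul]
      rw [Finset.card_univ, add_mul, mul_assoc (Fintype.card α : ℝ), ih2]
      push_cast
      ring

section
variable {G : Type*} [AddGroup G] [Fintype G] [DecidableEq G]

/-- indicator -/
noncomputable def ind (A : Finset G) (x : G) : ℝ := if x ∈ A then 1 else 0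

/-- the number of `a ∈ A` with `a + x ∈ A` -/
noncomputable def cr (A : Finset G) (x : G) : ℝ := ∑ a ∈ A, ind A (a + x)

theorem ind_nonneg (A : Finset G) (x : G) : 0 ≤ ind A x := by unfold ind; split_ifs <;> norm_num

theorem ind_sq (A : Finset G) (x : G) : ind A x ^ 2 = ind A x := by
  unfold ind; split_ifs <;> norm_num

theorem sum_ind (A : Finset G) : ∑ x, ind A x = A.card := by simp [ind]

theorem cr_nonneg (A : Finset G) (x : G) : 0 ≤ cr A x := Finset.sum_nonneg fun a _ => ind_nonneg A _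

theorem sum_cr (A : Finset G) : ∑ x, cr A x = (A.card : ℝ) ^ 2 := by
  unfold cr
  rw [Finset.sum_comm]
  have : ∀ a ∈ A, ∑ x, ind A (a + x) = A.card := by
    intro a _
    rw [← sum_ind A]
    exact Equiv.sum_comp (Equiv.addLeft a) (fun x => ind A x)
  rw [Finset.sum_congr rfl this]
  simp [sq]

theorem cr_pos_mem {A : Finset G} {x : G} (h : 0 < cr A x) : x ∈ -A + A := by
  unfold cr at h
  obtain ⟨a, ha, hax⟩ := Finset.exists_ne_zero_of_sum_ne_zero h.ne'
  unfold ind at hax
  split_ifs at hax with h1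
  · rw [Finset.mem_add]
    exact ⟨-a, Finset.neg_mem_neg ha, a + x, h1, by simp⟩
  · exact absurd rfl hax

/-- square norm of `f` -/
noncomputable def nsq (f : G → ℝ) : ℝ := ∑ x, f x ^ 2

theorem nsq_eq (f : G → ℝ) : nsq f = ‖(WithLp.toLp 2 f : EuclideanSpace ℝ G)‖ ^ 2 := by
  rw [EuclideanSpace.norm_sq_eq]
  simp [nsq]

theorem nsq_nonneg (f : G → ℝ) : 0 ≤ nsq f := Finset.sum_nonneg fun x _ => sq_nonneg _

theorem sqrt_nsq (f : G → ℝ) : Real.sqrt (nsq f) = ‖(WithLp.toLp 2 f : EuclideanSpace ℝ G)‖ := by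
  rw [nsq_eq, Real.sqrt_sq (norm_nonneg _)]

theorem sqrt_nsq_add (f g : G → ℝ) :
    Real.sqrt (nsq (fun x => f x + g x)) ≤ Real.sqrt (nsq f) + Real.sqrt (nsq g) := by
  rw [sqrt_nsq, sqrt_nsq, sqrt_nsq]
  exact norm_add_le (WithLp.toLp 2 f : EuclideanSpace ℝ G) (WithLp.toLp 2 g)

theorem nsq_shift (f : G → ℝ) (u : G) : nsq (fun x => f (u + x)) = nsq f := by
  unfold nsq
  exact Equiv.sum_comp (Equiv.addLeft u) (fun x => f x ^ 2)

/-- distance of `f` to its translate by `u` -/
noncomputable def qd (f : G → ℝ) (u : G) : ℝ := Real.sqrt (nsq (fun x => f (-u + x) - f x))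

theorem qd_nonneg (f : G → ℝ) (u : G) : 0 ≤ qd f u := Real.sqrt_nonneg _

theorem qd_zero (f : G → ℝ) : qd f 0 = 0 := by
  unfold qd nsq
  simp

theorem qd_add (f : G → ℝ) (u v : G) : qd f (u + v) ≤ qd f u + qd f v := by
  unfold qd
  have h1 : (fun x => f (-(u + v) + x) - f x) =
      fun x => (f (-u + x) - f x) + (f (-v + (-u + x)) - f (-u + x)) := by
    funext x
    rw [neg_add_rev, add_assoc]
    ring
  rw [h1]
  refine (sqrt_nsq_add _ _).trans ?_
  have h2 := nsq_shift (fun x => f (-v + x) - f x) (-u)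
  rw [h2]

theorem sum_mul_pos_of_qd {f : G → ℝ} {u : G} (hu : qd f u ^ 2 < 2 * nsq f) :
    0 < ∑ x, f (-u + x) * f x := by
  unfold qd at hu
  rw [Real.sq_sqrt (nsq_nonneg _)] at hu
  have h1 : nsq (fun x => f (-u + x) - f x) =
      nsq (fun x => f (-u + x)) - 2 * (∑ x, f (-u + x) * f x) + nsq f := by
    unfold nsq
    rw [Finset.mul_sum, ← Finset.sum_sub_distrib, ← Finset.sum_add_distrib]
    exact Finset.sum_congr rfl fun x _ => by ring
  rw [h1, nsq_shift f (-u)] at hu
  linarith

theorem mem_of_qd {A : Finset G} {u : G} (hu : qd (cr A) u ^ 2 < 2 * nsq (cr A)) :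
    u ∈ (-A + A) + (-A + A) := by
  have h := sum_mul_pos_of_qd hu
  obtain ⟨x, -, hx⟩ := Finset.exists_ne_zero_of_sum_ne_zero h.ne'
  have h1 : 0 < cr A x := lt_of_le_of_ne (cr_nonneg A x) (fun e => hx (by rw [← e, mul_zero]))
  have h2 : 0 < cr A (-u + x) :=
    lt_of_le_of_ne (cr_nonneg A _) (fun e => hx (by rw [← e, zero_mul]))
  have m1 := cr_pos_mem h1
  have m2 := cr_pos_mem h2
  obtain ⟨a, ha, b, hb, hab⟩ := Finset.mem_add.1 m2
  rw [Finset.mem_neg] at ha
  obtain ⟨a', ha', rfl⟩ := ha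
  rw [Finset.mem_add]
  refine ⟨x, m1, -b + a', Finset.mem_add.2 ⟨-b, Finset.neg_mem_neg hb, a', ha', rfl⟩, ?_⟩
  have : -b + a' = -(-u + x) := by rw [← hab, neg_add_rev, neg_neg]
  rw [this, neg_add_rev, neg_neg, ← add_assoc, add_neg_cancel, zero_add]

theorem nsq_cr_lower {A : Finset G} (hA : A.Nonempty) {K : ℝ}
    (hK : ((-A + A).card : ℝ) ≤ K * A.card) : (A.card : ℝ) ^ 3 ≤ K * nsq (cr A) := by
  classical
  have hpos : (0 : ℝ) < A.card := by exact_mod_cast hA.card_pos
  have h1 : ∑ x ∈ (-A + A), cr A x = (A.card : ℝ) ^ 2 := by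
    rw [← sum_cr A]
    refine Finset.sum_subset (Finset.subset_univ _) ?_
    intro x _ hx
    by_contra h
    exact hx (cr_pos_mem (lt_of_le_of_ne (cr_nonneg A x) (Ne.symm h)))
  have h2 : (∑ x ∈ (-A + A), cr A x) ^ 2 ≤ ((-A + A).card : ℝ) * ∑ x ∈ (-A + A), cr A x ^ 2 :=
    sq_sum_le_card_mul_sum_sq
  have h3 : ∑ x ∈ (-A + A), cr A x ^ 2 ≤ nsq (cr A) := by
    unfold nsq
    exact Finset.sum_le_sum_of_subset_of_nonneg (Finset.subset_univ _) fun x _ _ => sq_nonneg _
  rw [h1] at h2
  have h4 : ((A.card : ℝ) ^ 2) ^ 2 ≤ (K * A.card) * nsq (cr A) :=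
    h2.trans ((mul_le_mul_of_nonneg_left h3 (Nat.cast_nonneg _)).trans
      (mul_le_mul_of_nonneg_right hK (nsq_nonneg _)))
  have h5 : (A.card : ℝ) * (A.card : ℝ) ^ 3 ≤ A.card * (K * nsq (cr A)) := by
    calc (A.card : ℝ) * (A.card : ℝ) ^ 3 = ((A.card : ℝ) ^ 2) ^ 2 := by ring
      _ ≤ (K * A.card) * nsq (cr A) := h4
      _ = _ := by ring
  exact le_of_mul_le_mul_left h5 hpos

/-- the sampled function -/
noncomputable def smp (A : Finset G) (m : ℕ) (z : Fin m → G) (x : G) : ℝ :=
  (A.card : ℝ) / m * ∑ i, ind A (z i + x)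

theorem smp_mean (A : Finset G) (hA : A.Nonempty) (m : ℕ) (hm : 0 < m) :
    ∑ a : Fin m → A, nsq (fun x => smp A m (fun i => (a i : G)) x - cr A x) ≤
      (A.card : ℝ) ^ m * ((A.card : ℝ) ^ 3 / m) := by
  have hpos : (0 : ℝ) < A.card := by exact_mod_cast hA.card_pos
  have hm' : (0 : ℝ) < m := by exact_mod_cast hm
  have hx : ∀ x : G, ∑ a : Fin m → A, (smp A m (fun i => (a i : G)) x - cr A x) ^ 2 ≤
      (A.card : ℝ) ^ m * ((A.card : ℝ) / m * cr A x) := by
    intro x
    set h : A → ℝ := fun a => ind A ((a : G) + x) - cr A x / A.card with hh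
    have e1 : ∑ a : A, ind A ((a : G) + x) = cr A x := by
      unfold cr
      exact Finset.sum_coe_sort A (fun a => ind A (a + x))
    have h0 : ∑ a, h a = 0 := by
      rw [hh, Finset.sum_sub_distrib, e1]
      simp only [Finset.sum_const, nsmul_eq_mul, Finset.card_univ, Fintype.card_coe]
      field_simp
      simp
    have h2 : ∑ a, h a ^ 2 ≤ cr A x := by
      have : ∀ a : A, h a ^ 2 = ind A ((a : G) + x) - 2 * (cr A x / A.card) * ind A ((a : G) + x)
          + (cr A x / A.card) ^ 2 := by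
        intro a
        rw [hh]
        simp only
        rw [sub_sq, ind_sq]
        ring
      simp only [this, Finset.sum_add_distrib, Finset.sum_sub_distrib, ← Finset.mul_sum, e1,
        Finset.sum_const, nsmul_eq_mul, Finset.card_univ, Fintype.card_coe]
      have : (A.card : ℝ) * (cr A x / A.card) ^ 2 = cr A x ^ 2 / A.card := by
        field_simp
      rw [this]
      have h3 : 2 * (cr A x / A.card) * cr A x = 2 * (cr A x ^ 2 / A.card) := by ring
      rw [h3]
      have : 0 ≤ cr A x ^ 2 / A.card := by positivity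
      linarith
    have h3 := (sample h h0 m).2
    rw [Fintype.card_coe] at h3
    have h4 : ∀ a : Fin m → A, (smp A m (fun i => (a i : G)) x - cr A x) ^ 2 =
        ((A.card : ℝ) / m) ^ 2 * (∑ i, h (a i)) ^ 2 := by
      intro a
      rw [← mul_pow]
      congr 1
      rw [hh]
      simp only [Finset.sum_sub_distrib, Finset.sum_const, nsmul_eq_mul, Finset.card_univ,
        Fintype.card_fin]
      unfold smp
      field_simp
    simp only [h4, ← Finset.mul_sum]
    have h5 : ∑ a : Fin m → A, (∑ i, h (a i)) ^ 2 =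
        m * (A.card : ℝ) ^ m * (∑ a, h a ^ 2) / A.card := by
      rw [eq_div_iff hpos.ne']
      exact h3
    rw [h5]
    calc ((A.card : ℝ) / m) ^ 2 * (m * (A.card : ℝ) ^ m * (∑ a, h a ^ 2) / A.card)
        = (A.card : ℝ) ^ m * ((A.card : ℝ) / m * ∑ a, h a ^ 2) := by
          field_simp
      _ ≤ _ := by gcongr
  unfold nsq
  rw [Finset.sum_comm]
  refine (Finset.sum_le_sum fun x _ => hx x).trans (le_of_eq ?_)
  rw [← Finset.mul_sum, ← Finset.mul_sum, sum_cr]
  ring

theorem smp_add (A : Finset G) (m : ℕ) (z : Fin m → G) (s x : G) :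
    smp A m (fun i => z i + s) x = smp A m z (s + x) := by
  unfold smp
  simp only [add_assoc]

/-- many shifts along which the sample is good -/
theorem exists_good (A : Finset G) (hA : A.Nonempty) (m : ℕ) (hm : 0 < m) {K : ℝ}
    (hK : ((A + -A).card : ℝ) ≤ K * A.card) :
    ∃ (z : Fin m → G) (T : Finset G),
      (∀ s ∈ T, nsq (fun x => smp A m z (s + x) - cr A x) ≤ 2 * (A.card : ℝ) ^ 3 / m) ∧
      (A.card : ℝ) ≤ 2 * K ^ m * T.card := by
  classical
  have hpos : (0 : ℝ) < A.card := by exact_mod_cast hA.card_pos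
  have hm' : (0 : ℝ) < m := by exact_mod_cast hm
  set η : ℝ := 2 * (A.card : ℝ) ^ 3 / m with hη
  have hηpos : 0 < η := by positivity
  set E : (Fin m → A) → ℝ := fun a => nsq (fun x => smp A m (fun i => (a i : G)) x - cr A x) with hE
  set L : Finset (Fin m → A) := Finset.univ.filter fun a => E a ≤ η with hL
  have hmean := smp_mean A hA m hm
  have hcompl : ((Finset.univ.filter fun a : Fin m → A => ¬ E a ≤ η).card : ℝ) * η ≤
      (A.card : ℝ) ^ m * ((A.card : ℝ) ^ 3 / m) := by
    refine le_trans ?_ hmean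
    have h1 : ((Finset.univ.filter fun a : Fin m → A => ¬ E a ≤ η).card : ℝ) * η ≤
        ∑ a ∈ Finset.univ.filter fun a : Fin m → A => ¬ E a ≤ η, E a := by
      rw [← nsmul_eq_mul]
      refine Finset.card_nsmul_le_sum _ _ _ ?_
      intro a ha
      exact (not_le.1 (Finset.mem_filter.1 ha).2).le
    refine h1.trans ?_
    exact Finset.sum_le_sum_of_subset_of_nonneg (Finset.subset_univ _) fun a _ _ => nsq_nonneg _
  have hcompl2 : ((Finset.univ.filter fun a : Fin m → A => ¬ E a ≤ η).card : ℝ) ≤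
      (A.card : ℝ) ^ m / 2 := by
    have : (A.card : ℝ) ^ m * ((A.card : ℝ) ^ 3 / m) = (A.card : ℝ) ^ m / 2 * η := by
      rw [hη]; ring
    rw [this] at hcompl
    exact le_of_mul_le_mul_right hcompl hηpos
  have hLcard : (A.card : ℝ) ^ m / 2 ≤ L.card := by
    have h1 : L.card + (Finset.univ.filter fun a : Fin m → A => ¬ E a ≤ η).card =
        (Finset.univ : Finset (Fin m → A)).card :=
      Finset.card_filter_add_card_filter_not _
    have h2 : ((Finset.univ : Finset (Fin m → A)).card : ℝ) = (A.card : ℝ) ^ m := by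
      rw [Finset.card_univ, Fintype.card_fun, Fintype.card_fin, Fintype.card_coe]
      push_cast
      rfl
    have h3 : (L.card : ℝ) + ((Finset.univ.filter fun a : Fin m → A => ¬ E a ≤ η).card : ℝ) =
        (A.card : ℝ) ^ m := by rw [← h2, ← h1]; push_cast; rfl
    linarith
  -- pigeonhole
  set Z : Finset (Fin m → G) := Fintype.piFinset fun _ => A + -A with hZ
  set P : Finset ((Fin m → A) × G) := L ×ˢ A with hP
  have hmap : ∀ q ∈ P, (fun i => ((q.1 i : A) : G) - q.2) ∈ Z := by
    intro q hq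
    rw [hP, Finset.mem_product] at hq
    rw [hZ, Fintype.mem_piFinset]
    intro i
    rw [sub_eq_add_neg]
    exact Finset.add_mem_add (q.1 i).2 (Finset.neg_mem_neg hq.2)
  have hZcard : (Z.card : ℝ) ≤ (K * A.card) ^ m := by
    rw [hZ, Fintype.card_piFinset]
    simp only [Finset.prod_const, Finset.card_univ, Fintype.card_fin]
    push_cast
    exact pow_le_pow_left₀ (Nat.cast_nonneg _) hK m
  have hZne : Z.Nonempty := by
    obtain ⟨a, ha⟩ := hA
    exact ⟨fun _ => a + -a, Fintype.mem_piFinset.2 fun _ => Finset.add_mem_add ha (Finset.neg_mem_neg ha)⟩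
  obtain ⟨z, hz, hzb⟩ := Finset.exists_le_card_fiber_of_nsmul_le_card_of_maps_to hmap hZne
    (b := (P.card : ℝ) / Z.card) (by
      rw [nsmul_eq_mul, mul_div_cancel₀]
      have : (0 : ℝ) < Z.card := by exact_mod_cast hZne.card_pos
      exact this.ne')
  set T : Finset G := A.filter fun s =>
    nsq (fun x => smp A m z (s + x) - cr A x) ≤ η with hT
  refine ⟨z, T, fun s hs => (Finset.mem_filter.1 hs).2, ?_⟩
  have hfib : (P.filter fun q => (fun i => ((q.1 i : A) : G) - q.2) = z).card ≤ T.card := by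
    refine Finset.card_le_card_of_injOn (fun q => q.2) ?_ ?_
    · intro q hq
      have hq := Finset.mem_coe.1 hq
      rw [Finset.mem_filter, hP, Finset.mem_product] at hq
      obtain ⟨⟨h1, h2⟩, h3⟩ := hq
      refine Finset.mem_coe.2 (Finset.mem_filter.2 ⟨h2, ?_⟩)
      rw [hL, Finset.mem_filter] at h1
      have h4 : (fun i => ((q.1 i : A) : G)) = fun i => z i + q.2 := by
        funext i
        rw [← h3]
        simp
      have h5 := h1.2
      rw [hE] at h5
      simp only [h4, smp_add] at h5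
      exact h5
    · intro q hq q' hq' hqq
      have hq := (Finset.mem_filter.1 (Finset.mem_coe.1 hq)).2
      have hq' := (Finset.mem_filter.1 (Finset.mem_coe.1 hq')).2
      have hqq : q.2 = q'.2 := hqq
      refine Prod.ext ?_ hqq
      funext i
      have e1 := congrFun hq i
      have e2 := congrFun hq' i
      rw [← e2, hqq] at e1
      exact Subtype.ext (sub_left_injective e1)
  have hPcard : (P.card : ℝ) = L.card * A.card := by
    rw [hP, Finset.card_product]; push_cast; rfl
  have hZpos : (0 : ℝ) < Z.card := by exact_mod_cast hZne.card_pos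
  have h1 : (P.card : ℝ) ≤ T.card * Z.card := by
    rw [div_le_iff₀ hZpos] at hzb
    refine hzb.trans ?_
    gcongr
  have h2 : (A.card : ℝ) ^ m / 2 * A.card ≤ T.card * (K * A.card) ^ m := by
    calc (A.card : ℝ) ^ m / 2 * A.card ≤ L.card * A.card := by gcongr
      _ = P.card := hPcard.symm
      _ ≤ T.card * Z.card := h1
      _ ≤ _ := by gcongr
  have h3 : (A.card : ℝ) ^ m * A.card ≤ (A.card : ℝ) ^ m * (2 * K ^ m * T.card) := by
    rw [mul_pow] at h2
    nlinarith [h2]
  exact le_of_mul_le_mul_left h3 (by positivity)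

/-- **Croot-Sisask**, packaged: a large set `B` on which a subadditive function `q` is at most
`1`, all of whose sublevel set `q ≤ M` lies in `(-A + A) + (-A + A)` -/
theorem almost_periods (K : ℝ) (hK0 : 0 < K) (M : ℝ) (m : ℕ) (hm : 4 * K * M ^ 2 < m)
    (A : Finset G) (hA : A.Nonempty)
    (hW : ((A + ((-A + A) + (-A + A))).card : ℝ) ≤ K * A.card) :
    ∃ (B : Finset G) (q : G → ℝ), B.Nonempty ∧ (∀ u, 0 ≤ q u) ∧ q 0 = 0 ∧
      (∀ u v, q (u + v) ≤ q u + q v) ∧ (∀ u ∈ B, q u ≤ 1) ∧
      (∀ u, q u ≤ M → u ∈ (-A + A) + (-A + A)) ∧ (A.card : ℝ) ≤ 2 * K ^ m * B.card := by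
  classical
  have hm0 : 0 < m := by
    have : (0 : ℝ) < m := lt_of_le_of_lt (by positivity) hm
    exact_mod_cast this
  have hm' : (0 : ℝ) < m := by exact_mod_cast hm0
  have hpos : (0 : ℝ) < A.card := by exact_mod_cast hA.card_pos
  obtain ⟨a₀, ha₀⟩ := hA
  have hz0 : (0 : G) ∈ -A + A := by
    rw [Finset.mem_add]
    exact ⟨-a₀, Finset.neg_mem_neg ha₀, a₀, ha₀, by simp⟩
  have hD : ((-A + A).card : ℝ) ≤ K * A.card := by
    refine le_trans ?_ hW
    have : (-A + A).card ≤ (A + ((-A + A) + (-A + A))).card := by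
      rw [← Finset.card_vadd_finset a₀ (-A + A)]
      refine Finset.card_le_card ?_
      intro y hy
      rw [Finset.mem_vadd_finset] at hy
      obtain ⟨d, hd, rfl⟩ := hy
      rw [vadd_eq_add]
      refine Finset.add_mem_add ha₀ ?_
      have := Finset.add_mem_add hd hz0
      rwa [add_zero] at this
    exact_mod_cast this
  have hAA : ((A + -A).card : ℝ) ≤ K * A.card := by
    refine le_trans ?_ hW
    have : (A + -A).card ≤ (A + ((-A + A) + (-A + A))).card := by
      refine Finset.card_le_card_of_injOn (fun y => y + a₀) ?_ ?_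
      · intro y hy
        obtain ⟨a, ha, b, hb, rfl⟩ := Finset.mem_add.1 (Finset.mem_coe.1 hy)
        refine Finset.mem_coe.2 ?_
        show a + b + a₀ ∈ A + ((-A + A) + (-A + A))
        rw [add_assoc a b a₀]
        refine Finset.add_mem_add ha ?_
        have := Finset.add_mem_add (Finset.add_mem_add hb ha₀) hz0
        rwa [add_zero] at this
      · intro y _ y' _ h
        exact add_right_cancel h
    exact_mod_cast this
  obtain ⟨z, T, hT, hTc⟩ := exists_good A ⟨a₀, ha₀⟩ m hm0 hAA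
  have hTne : T.Nonempty := by
    rw [Finset.nonempty_iff_ne_empty]
    intro h
    rw [h] at hTc
    simp at hTc
    have : A.card = 0 := by
      have : (A : Finset G) = ∅ := by simpa using hTc
      rw [this]; rfl
    rw [this] at hpos
    simp at hpos
  obtain ⟨s₀, hs₀⟩ := hTne
  set η : ℝ := 2 * (A.card : ℝ) ^ 3 / m with hη
  have hηpos : 0 < η := by positivity
  have hsη : 0 < Real.sqrt η := Real.sqrt_pos.2 hηpos
  refine ⟨T.image fun s => -s₀ + s, fun u => qd (cr A) u / (2 * Real.sqrt η),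
    ⟨-s₀ + s₀, Finset.mem_image_of_mem _ hs₀⟩, ?_, ?_, ?_, ?_, ?_, ?_⟩
  · intro u
    exact div_nonneg (qd_nonneg _ _) (by positivity)
  · show qd (cr A) 0 / (2 * Real.sqrt η) = 0
    rw [qd_zero, zero_div]
  · intro u v
    show qd (cr A) (u + v) / (2 * Real.sqrt η) ≤ qd (cr A) u / (2 * Real.sqrt η) + qd (cr A) v / (2 * Real.sqrt η)
    rw [← add_div]
    exact div_le_div_of_nonneg_right (qd_add _ _ _) (by positivity)
  · intro u hu
    obtain ⟨s, hs, rfl⟩ := Finset.mem_image.1 hu
    show qd (cr A) (-s₀ + s) / (2 * Real.sqrt η) ≤ 1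
    rw [div_le_one (by positivity)]
    -- f(-s + y) - f(-s0 + y), y = s0 + x
    have e1 : Real.sqrt (nsq (fun x => smp A m z (s + x) - cr A x)) ≤ Real.sqrt η :=
      Real.sqrt_le_sqrt (hT s hs)
    have e2 : Real.sqrt (nsq (fun x => smp A m z (s₀ + x) - cr A x)) ≤ Real.sqrt η :=
      Real.sqrt_le_sqrt (hT s₀ hs₀)
    have h1 : (fun x => cr A (-(-s₀ + s) + x) - cr A x) =
        fun x => (-(smp A m z (s + (-(-s₀ + s) + x)) - cr A (-(-s₀ + s) + x))) +
          (smp A m z (s₀ + x) - cr A x) := by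
      funext x
      have : s + (-(-s₀ + s) + x) = s₀ + x := by
        rw [neg_add_rev, neg_neg]
        simp [← add_assoc]
      rw [this]
      ring
    unfold qd
    rw [h1]
    refine (sqrt_nsq_add _ _).trans ?_
    have h2 : nsq (fun x => -(smp A m z (s + (-(-s₀ + s) + x)) - cr A (-(-s₀ + s) + x))) =
        nsq (fun x => smp A m z (s + x) - cr A x) := by
      have := nsq_shift (fun x => smp A m z (s + x) - cr A x) (-(-s₀ + s))
      rw [← this]
      unfold nsq
      exact Finset.sum_congr rfl fun x _ => by ring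
    rw [h2]
    linarith
  · intro u hu
    have hu' : qd (cr A) u ≤ M * (2 * Real.sqrt η) := (div_le_iff₀ (by positivity)).1 hu
    refine mem_of_qd ?_
    have h1 : qd (cr A) u ^ 2 ≤ (M * (2 * Real.sqrt η)) ^ 2 :=
      pow_le_pow_left₀ (qd_nonneg _ _) hu' 2
    have h2 : (M * (2 * Real.sqrt η)) ^ 2 = 4 * M ^ 2 * η := by
      rw [mul_pow, mul_pow, Real.sq_sqrt hηpos.le]; ring
    have h3 := nsq_cr_lower ⟨a₀, ha₀⟩ hD
    have h4 : 4 * M ^ 2 * η < 2 * nsq (cr A) := by
      have h5 : K * (4 * M ^ 2 * η) < 2 * (A.card : ℝ) ^ 3 := by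
        rw [hη]
        have : K * (4 * M ^ 2 * (2 * (A.card : ℝ) ^ 3 / m)) =
          (4 * K * M ^ 2 / m) * (2 * (A.card : ℝ) ^ 3) := by ring
        rw [this]
        have h6 : 4 * K * M ^ 2 / m < 1 := (div_lt_one hm').2 hm
        have h7 : (0 : ℝ) < 2 * (A.card : ℝ) ^ 3 := by positivity
        calc (4 * K * M ^ 2 / m) * (2 * (A.card : ℝ) ^ 3) < 1 * (2 * (A.card : ℝ) ^ 3) :=
              mul_lt_mul_of_pos_right h6 h7
          _ = _ := one_mul _
      have h8 : K * (4 * M ^ 2 * η) < K * (2 * nsq (cr A)) := by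
        calc K * (4 * M ^ 2 * η) < 2 * (A.card : ℝ) ^ 3 := h5
          _ ≤ 2 * (K * nsq (cr A)) := by linarith
          _ = _ := by ring
      exact lt_of_mul_lt_mul_left h8 hK0.le
    rw [h2] at h1
    exact lt_of_le_of_lt h1 h4
  · rw [Finset.card_image_of_injective _ (add_right_injective (-s₀))]
    exact hTc

end

end Run7.h50.EN
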