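import Mathlib
import Pool.Agent.Run7.h50.EN.CS

/-!
# Small doubling in finite non-commutative groups: a large part near a symmetric set
-/

set_option autoImplicit false
set_option linter.unusedSectionVars false
set_option linter.unusedVariables false

namespace Run7.h50.EN

open Finset
open scoped Pointwise

section
variable {G : Type*} [AddGroup G] [Fintype G] [DecidableEq G]

/-- the number of `a ∈ A` with `y + a ∈ A` -/
noncomputable def br (A : Finset G) (y : G) : ℝ := ∑ a ∈ A, ind A (y + a)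

theorem sum_br (A : Finset G) : ∑ y, br A y = (A.card : ℝ) ^ 2 := by
  unfold br
  rw [Finset.sum_comm]
  have : ∀ a ∈ A, ∑ y, ind A (y + a) = A.card := by
    intro a _
    rw [← sum_ind A]
    exact Equiv.sum_comp (Equiv.addRight a) (fun x => ind A x)
  rw [Finset.sum_congr rfl this]
  simp [sq]

theorem br_mem {A : Finset G} {y : G} (h : br A y ≠ 0) : y ∈ A + -A := by
  unfold br at h
  obtain ⟨a, ha, hax⟩ := Finset.exists_ne_zero_of_sum_ne_zero h
  unfold ind at hax
  split_ifs at hax with h1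
  · rw [Finset.mem_add]
    exact ⟨y + a, h1, -a, Finset.neg_mem_neg ha, by simp⟩
  · exact absurd rfl hax

theorem nsq_cr_eq (A : Finset G) : nsq (cr A) = ∑ y, br A y ^ 2 := by
  classical
  have h1 : nsq (cr A) = ∑ a ∈ A, ∑ c ∈ A, br A (c - a) := by
    unfold nsq cr
    have e1 : ∀ x, (∑ a ∈ A, ind A (a + x)) ^ 2 =
        ∑ a ∈ A, ∑ c ∈ A, ind A (a + x) * ind A (c + x) := by
      intro x
      rw [sq, Finset.sum_mul_sum]
    simp only [e1]
    rw [Finset.sum_comm]
    refine Finset.sum_congr rfl fun a _ => ?_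
    rw [Finset.sum_comm]
    refine Finset.sum_congr rfl fun c _ => ?_
    unfold br
    have e2 := Equiv.sum_comp (Equiv.addLeft (-a)) (fun x => ind A (a + x) * ind A (c + x))
    rw [← e2]
    have e3 : ∀ x, ind A (a + (Equiv.addLeft (-a)) x) * ind A (c + (Equiv.addLeft (-a)) x) =
        if x ∈ A then ind A (c - a + x) else 0 := by
      intro x
      simp only [Equiv.coe_addLeft, add_neg_cancel_left]
      rw [show c + (-a + x) = c - a + x by rw [sub_eq_add_neg, add_assoc]]
      unfold ind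
      split_ifs <;> simp
    simp only [e3]
    rw [Finset.sum_ite_mem, Finset.univ_inter]
  have h2 : ∑ y, br A y ^ 2 = ∑ a ∈ A, ∑ c ∈ A, br A (c - a) := by
    have e1 : ∀ y, br A y ^ 2 = ∑ a ∈ A, ind A (y + a) * br A y := by
      intro y
      rw [← Finset.sum_mul, sq]
      rfl
    simp only [e1]
    rw [Finset.sum_comm]
    refine Finset.sum_congr rfl fun a _ => ?_
    have e2 := Equiv.sum_comp (Equiv.addRight (-a)) (fun y => ind A (y + a) * br A y)
    rw [← e2]
    have e3 : ∀ c, ind A ((Equiv.addRight (-a)) c + a) * br A ((Equiv.addRight (-a)) c) =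
        if c ∈ A then br A (c - a) else 0 := by
      intro c
      simp only [Equiv.coe_addRight, neg_add_cancel_right]
      rw [← sub_eq_add_neg]
      unfold ind
      split_ifs <;> simp
    simp only [e3]
    rw [Finset.sum_ite_mem, Finset.univ_inter]
  rw [h1, h2]

theorem nsq_cr_lower' {A : Finset G} (hA : A.Nonempty) {K : ℝ}
    (hK : ((A + -A).card : ℝ) ≤ K * A.card) : (A.card : ℝ) ^ 3 ≤ K * nsq (cr A) := by
  classical
  have hpos : (0 : ℝ) < A.card := by exact_mod_cast hA.card_pos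
  have h1 : ∑ x ∈ (A + -A), br A x = (A.card : ℝ) ^ 2 := by
    rw [← sum_br A]
    refine Finset.sum_subset (Finset.subset_univ _) ?_
    intro x _ hx
    by_contra h
    exact hx (br_mem h)
  have h2 : (∑ x ∈ (A + -A), br A x) ^ 2 ≤ ((A + -A).card : ℝ) * ∑ x ∈ (A + -A), br A x ^ 2 :=
    sq_sum_le_card_mul_sum_sq
  have h3 : ∑ x ∈ (A + -A), br A x ^ 2 ≤ nsq (cr A) := by
    rw [nsq_cr_eq]
    exact Finset.sum_le_sum_of_subset_of_nonneg (Finset.subset_univ _) fun x _ _ => sq_nonneg _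
  rw [h1] at h2
  have h4 : ((A.card : ℝ) ^ 2) ^ 2 ≤ (K * A.card) * nsq (cr A) :=
    h2.trans ((mul_le_mul_of_nonneg_left h3 (Nat.cast_nonneg _)).trans
      (mul_le_mul_of_nonneg_right hK (nsq_nonneg _)))
  have h5 : (A.card : ℝ) * (A.card : ℝ) ^ 3 ≤ A.card * (K * nsq (cr A)) := by
    calc (A.card : ℝ) * (A.card : ℝ) ^ 3 = ((A.card : ℝ) ^ 2) ^ 2 := by ring
      _ ≤ (K * A.card) * nsq (cr A) := h4
      _ = _ := by ring
  exact le_of_mul_le_mul_left h5 hpos

/-- the elements of `A` with `a + x ∈ A` -/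
def Rp (A : Finset G) (x : G) : Finset G := A.filter fun a => a + x ∈ A

theorem cr_eq (A : Finset G) (x : G) : cr A x = (Rp A x).card := by
  unfold cr Rp ind
  rw [Finset.sum_boole]

theorem cr_neg (A : Finset G) (x : G) : cr A (-x) = cr A x := by
  rw [cr_eq, cr_eq]
  congr 1
  refine Finset.card_bij (fun a _ => a + -x) ?_ ?_ ?_
  · intro a ha
    unfold Rp at ha ⊢
    rw [Finset.mem_filter] at ha ⊢
    exact ⟨ha.2, by simpa using ha.1⟩
  · intro a _ b _ h
    exact add_right_cancel h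
  · intro b hb
    unfold Rp at hb ⊢
    rw [Finset.mem_filter] at hb
    refine ⟨b + x, ?_, by simp⟩
    rw [Finset.mem_filter]
    exact ⟨hb.2, by simpa using hb.1⟩

theorem cr_le (A : Finset G) (x : G) : cr A x ≤ A.card := by
  rw [cr_eq]
  exact_mod_cast Finset.card_filter_le _ _

/-- the popular elements -/
noncomputable def Pop (K : ℝ) (A : Finset G) : Finset G :=
  univ.filter fun x => (A.card : ℝ) ≤ 2 * K * cr A x

theorem Pop_neg (K : ℝ) (A : Finset G) : -Pop K A = Pop K A := by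
  ext x
  rw [Finset.mem_neg']
  unfold Pop
  simp only [Finset.mem_filter, Finset.mem_univ, true_and, cr_neg]

theorem card_Pop {A : Finset G} (hA : A.Nonempty) {K : ℝ} (hK0 : 0 < K)
    (hK : ((A + -A).card : ℝ) ≤ K * A.card) : (A.card : ℝ) ≤ 2 * K * (Pop K A).card := by
  have hpos : (0 : ℝ) < A.card := by exact_mod_cast hA.card_pos
  have h1 := nsq_cr_lower' hA hK
  have h2 : nsq (cr A) = ∑ x ∈ Pop K A, cr A x ^ 2 +
      ∑ x ∈ univ.filter (fun x => ¬ (A.card : ℝ) ≤ 2 * K * cr A x), cr A x ^ 2 := by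
    unfold nsq Pop
    rw [Finset.sum_filter_add_sum_filter_not]
  have h3 : ∑ x ∈ Pop K A, cr A x ^ 2 ≤ (Pop K A).card * (A.card : ℝ) ^ 2 := by
    refine (Finset.sum_le_card_nsmul _ _ ((A.card : ℝ) ^ 2) fun x _ => ?_).trans (by
      rw [nsmul_eq_mul])
    exact pow_le_pow_left₀ (cr_nonneg A x) (cr_le A x) 2
  have h4 : 2 * K * ∑ x ∈ univ.filter (fun x => ¬ (A.card : ℝ) ≤ 2 * K * cr A x), cr A x ^ 2 ≤
      (A.card : ℝ) ^ 3 := by
    rw [Finset.mul_sum]
    calc ∑ x ∈ univ.filter (fun x => ¬ (A.card : ℝ) ≤ 2 * K * cr A x), 2 * K * cr A x ^ 2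
        ≤ ∑ x ∈ univ.filter (fun x => ¬ (A.card : ℝ) ≤ 2 * K * cr A x), (A.card : ℝ) * cr A x := by
          refine Finset.sum_le_sum fun x hx => ?_
          have h5 := (not_le.1 (Finset.mem_filter.1 hx).2).le
          calc 2 * K * cr A x ^ 2 = (2 * K * cr A x) * cr A x := by ring
            _ ≤ A.card * cr A x := mul_le_mul_of_nonneg_right h5 (cr_nonneg A x)
      _ ≤ ∑ x, (A.card : ℝ) * cr A x :=
          Finset.sum_le_sum_of_subset_of_nonneg (Finset.subset_univ _)
            fun x _ _ => mul_nonneg hpos.le (cr_nonneg A x)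
      _ = (A.card : ℝ) ^ 3 := by rw [← Finset.mul_sum, sum_cr]; ring
  have h5 : 2 * (A.card : ℝ) ^ 3 ≤ 2 * K * ((Pop K A).card * (A.card : ℝ) ^ 2) + (A.card : ℝ) ^ 3 := by
    have h6 : 2 * (A.card : ℝ) ^ 3 ≤ 2 * K * nsq (cr A) := by linarith
    rw [h2, mul_add] at h6
    have h7 : 2 * K * ∑ x ∈ Pop K A, cr A x ^ 2 ≤ 2 * K * ((Pop K A).card * (A.card : ℝ) ^ 2) :=
      mul_le_mul_of_nonneg_left h3 (by positivity)
    linarith
  have h6 : (A.card : ℝ) ^ 2 * A.card ≤ (A.card : ℝ) ^ 2 * (2 * K * (Pop K A).card) := by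
    nlinarith [h5]
  exact le_of_mul_le_mul_left h6 (by positivity)

/-- adding the popular set -/
theorem step {A : Finset G} (hA : A.Nonempty) {K : ℝ} (hK0 : 0 < K)
    (hK : ((A + -A).card : ℝ) ≤ K * A.card) (T : Finset G) :
    ((T + Pop K A + -A).card : ℝ) ≤ 2 * K ^ 2 * (T + -A).card := by
  classical
  have hpos : (0 : ℝ) < A.card := by exact_mod_cast hA.card_pos
  have hrep : ∀ x : G, ∃ p : G × G × G, x ∈ T + Pop K A + -A →
      p.1 ∈ T ∧ p.2.1 ∈ Pop K A ∧ p.2.2 ∈ A ∧ p.1 + p.2.1 + -p.2.2 = x := by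
    intro x
    by_cases hx : x ∈ T + Pop K A + -A
    · obtain ⟨y, hy, z, hz, rfl⟩ := Finset.mem_add.1 hx
      obtain ⟨t, ht, s, hs, rfl⟩ := Finset.mem_add.1 hy
      rw [Finset.mem_neg] at hz
      obtain ⟨a, ha, rfl⟩ := hz
      exact ⟨(t, s, a), fun _ => ⟨ht, hs, ha, rfl⟩⟩
    · exact ⟨0, fun h => absurd h hx⟩
  choose p hp using hrep
  set Ω : Finset (Σ _ : G, G) := (T + Pop K A + -A).sigma fun x => Rp A (p x).2.1 with hΩ
  have h1 : Ω.card ≤ ((T + -A) ×ˢ (A + -A)).card := by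
    refine Finset.card_le_card_of_injOn
      (fun w => ((p w.1).1 + -w.2, w.2 + (p w.1).2.1 + -(p w.1).2.2)) ?_ ?_
    · rintro ⟨x, a⟩ hw
      have hw := Finset.mem_coe.1 hw
      rw [hΩ, Finset.mem_sigma] at hw
      obtain ⟨h1, h2⟩ := hw
      obtain ⟨q1, q2, q3, q4⟩ := hp x h1
      unfold Rp at h2
      rw [Finset.mem_filter] at h2
      refine Finset.mem_coe.2 (Finset.mem_product.2 ⟨?_, ?_⟩)
      · exact Finset.add_mem_add q1 (Finset.neg_mem_neg h2.1)
      · exact Finset.add_mem_add h2.2 (Finset.neg_mem_neg q3)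
    · rintro ⟨x, a⟩ hw ⟨x', a'⟩ hw' h
      have hw := (Finset.mem_sigma.1 (Finset.mem_coe.1 hw)).1
      have hw' := (Finset.mem_sigma.1 (Finset.mem_coe.1 hw')).1
      obtain ⟨e1, e2⟩ := Prod.ext_iff.1 h
      have e1 : (p x).1 + -a = (p x').1 + -a' := e1
      have e2 : a + (p x).2.1 + -(p x).2.2 = a' + (p x').2.1 + -(p x').2.2 := e2
      have hx : x = x' := by
        rw [← (hp x hw).2.2.2, ← (hp x' hw').2.2.2]
        calc (p x).1 + (p x).2.1 + -(p x).2.2
            = ((p x).1 + -a) + (a + (p x).2.1 + -(p x).2.2) := by simp [add_assoc]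
          _ = ((p x').1 + -a') + (a' + (p x').2.1 + -(p x').2.2) := by rw [e1, e2]
          _ = _ := by simp [add_assoc]
      subst hx
      have : a = a' := neg_injective (add_left_cancel e1)
      rw [this]
  have h2 : ((T + Pop K A + -A).card : ℝ) * A.card ≤ 2 * K * Ω.card := by
    rw [hΩ, Finset.card_sigma, Nat.cast_sum, Finset.mul_sum, ← nsmul_eq_mul]
    refine Finset.card_nsmul_le_sum _ _ _ fun x hx => ?_
    have := (hp x hx).2.1
    unfold Pop at this
    rw [Finset.mem_filter, cr_eq] at this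
    exact this.2
  have h3 : (Ω.card : ℝ) ≤ (T + -A).card * (K * A.card) := by
    have : (Ω.card : ℝ) ≤ (T + -A).card * (A + -A).card := by
      rw [Finset.card_product] at h1
      exact_mod_cast h1
    refine this.trans ?_
    exact mul_le_mul_of_nonneg_left hK (Nat.cast_nonneg _)
  have h4 : ((T + Pop K A + -A).card : ℝ) * A.card ≤ (2 * K ^ 2 * (T + -A).card) * A.card := by
    calc _ ≤ 2 * K * Ω.card := h2
      _ ≤ 2 * K * ((T + -A).card * (K * A.card)) := by gcongr
      _ = _ := by ring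
  exact le_of_mul_le_mul_right h4 hpos

theorem card_nsmul_Pop {A : Finset G} (hA : A.Nonempty) {K : ℝ} (hK0 : 0 < K)
    (hK : ((A + -A).card : ℝ) ≤ K * A.card) (n : ℕ) :
    ((n • Pop K A + -A).card : ℝ) ≤ (2 * K ^ 2) ^ n * A.card := by
  induction n with
  | zero => simp
  | succ n ih =>
    rw [succ_nsmul]
    refine (step hA hK0 hK (n • Pop K A)).trans ?_
    calc 2 * K ^ 2 * ((n • Pop K A + -A).card : ℝ) ≤ 2 * K ^ 2 * ((2 * K ^ 2) ^ n * A.card) := by
          gcongr
      _ = _ := by ring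

/-- a large part of a set of small doubling is contained in a translate of a small multiple of a
symmetric set -/
theorem exists_part {A : Finset G} (hA : A.Nonempty) {K : ℝ} (hK0 : 0 < K)
    (hK : ((A + -A).card : ℝ) ≤ K * A.card) :
    ∃ X ⊆ A, X.Nonempty ∧ (A.card : ℝ) ≤ 4 * K ^ 4 * X.card ∧
      ((X + ((-X + X) + (-X + X))).card : ℝ) ≤ (2 * K ^ 2) ^ 10 * (4 * K ^ 4) * X.card := by
  classical
  have hpos : (0 : ℝ) < A.card := by exact_mod_cast hA.card_pos
  set S : Finset G := Pop K A with hS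
  have hScard := card_Pop hA hK0 hK
  rw [← hS] at hScard
  have hSpos : (0 : ℝ) < S.card := by
    by_contra h
    have : 2 * K * (S.card : ℝ) ≤ 0 :=
      mul_nonpos_of_nonneg_of_nonpos (by positivity) (not_lt.1 h)
    linarith
  have hSne : S.Nonempty := Finset.card_pos.1 (by exact_mod_cast hSpos)
  have hSneg : -S = S := Pop_neg K A
  have hAS : ((A + S).card : ℝ) ≤ 4 * K ^ 4 * S.card := by
    have h1 : ((A + S).card : ℝ) ≤ (A + S + -A).card := by
      have := Finset.card_le_card_add_right (s := A + S) (t := -A) (by simpa using hA)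
      exact_mod_cast this
    have h2 := step hA hK0 hK A
    rw [← hS] at h2
    calc ((A + S).card : ℝ) ≤ 2 * K ^ 2 * (A + -A).card := h1.trans h2
      _ ≤ 2 * K ^ 2 * (K * A.card) := by gcongr
      _ ≤ 2 * K ^ 2 * (K * (2 * K * S.card)) := by gcongr
      _ = _ := by ring
  obtain ⟨F, hFA, hFc, hcov⟩ := Finset.ruzsa_covering_add hSne hAS
  have hFne : F.Nonempty := by
    rw [Finset.nonempty_iff_ne_empty]
    intro h
    rw [h, Finset.empty_add] at hcov
    exact hA.ne_empty (Finset.subset_empty.1 hcov)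
  have hFpos : (0 : ℝ) < F.card := by exact_mod_cast hFne.card_pos
  have hex : ∃ f ∈ F, (A.card : ℝ) / F.card ≤ ((A.filter fun a => -f + a ∈ S - S).card : ℝ) := by
    by_contra hcon
    push Not at hcon
    have h1 : A ⊆ F.biUnion fun f => A.filter fun a => -f + a ∈ S - S := by
      intro a ha
      obtain ⟨f, hf, u, hu, rfl⟩ := Finset.mem_add.1 (hcov ha)
      rw [Finset.mem_biUnion]
      exact ⟨f, hf, Finset.mem_filter.2 ⟨ha, by simpa using hu⟩⟩
    have h2 : (A.card : ℝ) ≤ ∑ f ∈ F, ((A.filter fun a => -f + a ∈ S - S).card : ℝ) := by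
      exact_mod_cast (Finset.card_le_card h1).trans Finset.card_biUnion_le
    have h3 : ∑ f ∈ F, ((A.filter fun a => -f + a ∈ S - S).card : ℝ) <
        ∑ f ∈ F, (A.card : ℝ) / F.card := Finset.sum_lt_sum_of_nonempty hFne hcon
    rw [Finset.sum_const, nsmul_eq_mul, mul_div_cancel₀ _ hFpos.ne'] at h3
    linarith
  obtain ⟨f, hf, hfc⟩ := hex
  set X : Finset G := A.filter fun a => -f + a ∈ S - S with hX
  have hXc : (A.card : ℝ) ≤ 4 * K ^ 4 * X.card := by
    rw [div_le_iff₀ hFpos] at hfc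
    calc (A.card : ℝ) ≤ X.card * F.card := hfc
      _ ≤ X.card * (4 * K ^ 4) := by gcongr
      _ = _ := by ring
  have hXpos : (0 : ℝ) < X.card := by
    by_contra h
    have : 4 * K ^ 4 * (X.card : ℝ) ≤ 0 :=
      mul_nonpos_of_nonneg_of_nonpos (by positivity) (not_lt.1 h)
    linarith
  refine ⟨X, Finset.filter_subset _ _, Finset.card_pos.1 (by exact_mod_cast hXpos), hXc, ?_⟩
  have hSS : S - S = 2 • S := by rw [sub_eq_add_neg, hSneg, two_nsmul]
  have hneg2 : -((2 : ℕ) • S) = 2 • S := by rw [two_nsmul, neg_add_rev, hSneg]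
  have hmem : ∀ a ∈ X, -f + a ∈ 2 • S := fun a ha => by
    rw [← hSS]; exact (Finset.mem_filter.1 ha).2
  have hsub : X + ((-X + X) + (-X + X)) ⊆ {f} + 10 • S := by
    intro y hy
    obtain ⟨a, ha, v, hv, rfl⟩ := Finset.mem_add.1 hy
    obtain ⟨v1, hv1, v2, hv2, rfl⟩ := Finset.mem_add.1 hv
    have hd : ∀ v ∈ -X + X, v ∈ 4 • S := by
      intro v hv
      obtain ⟨b', hb', c, hc, rfl⟩ := Finset.mem_add.1 hv
      rw [Finset.mem_neg] at hb'
      obtain ⟨b, hb, rfl⟩ := hb'
      have h1 : -b + c = -(-f + b) + (-f + c) := by simp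
      rw [h1, show (4 : ℕ) = 2 + 2 by rfl, add_nsmul]
      refine Finset.add_mem_add ?_ (hmem c hc)
      rw [← hneg2]
      exact Finset.neg_mem_neg (hmem b hb)
    have h1 : a + (v1 + v2) = f + ((-f + a) + (v1 + v2)) := by simp [add_assoc]
    rw [h1]
    refine Finset.add_mem_add (Finset.mem_singleton_self f) ?_
    rw [show (10 : ℕ) = 2 + (4 + 4) by rfl, add_nsmul, add_nsmul]
    exact Finset.add_mem_add (hmem a ha) (Finset.add_mem_add (hd v1 hv1) (hd v2 hv2))
  calc ((X + ((-X + X) + (-X + X))).card : ℝ) ≤ (({f} + 10 • S : Finset G).card : ℝ) := by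
        exact_mod_cast Finset.card_le_card hsub
    _ = ((10 • S).card : ℝ) := by rw [Finset.card_singleton_add]
    _ ≤ ((10 • S + -A).card : ℝ) := by
        have := Finset.card_le_card_add_right (s := 10 • S) (t := -A) (by simpa using hA)
        exact_mod_cast this
    _ ≤ (2 * K ^ 2) ^ 10 * A.card := card_nsmul_Pop hA hK0 hK 10
    _ ≤ (2 * K ^ 2) ^ 10 * (4 * K ^ 4 * X.card) := by gcongr
    _ = _ := by ring

end

end Run7.h50.EN
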