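import Mathlib
import Pool.Agent.Helper868.DHJ
import Pool.Agent.Run7.h50.EN.CS

/-!
# Patterns in sets of small doubling, by density Hales-Jewett
-/

set_option autoImplicit false
set_option linter.unusedSectionVars false
set_option linter.unusedVariables false

namespace Run7.h50.EN

open Finset
open scoped Pointwise
open Pool.Agent.Helper868

/-- the density Hales-Jewett theorem, as a lower bound for the number of base points -/
theorem exists_lines {β : Type} [Fintype β] [Nonempty β] (N : ℕ) (δ : ℝ) (hδ : 0 < δ)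
    (hN : ∀ A : Set (Fin N → β), DHJ.LineFree A → DHJ.dens A < δ)
    {G : Type} [AddGroup G] [Fintype G] [DecidableEq G] (A W : Finset G)
    (hAW : 2 * δ * W.card ≤ A.card) (φ : (Fin N → β) → G)
    (hφ : ∀ x, ∀ a ∈ A, a + -(φ x) ∈ W) :
    ∃ S : Finset G, (A.card : ℝ) ≤ 2 * S.card ∧
      ∀ g ∈ S, ∃ u : Fin N → Option β, (∃ i, u i = none) ∧ ∀ b, g + φ (DHJ.pt u b) ∈ A := by
  classical
  set S : Finset G := W.filter fun g => δ ≤ DHJ.dens {x | g + φ x ∈ A} with hS
  refine ⟨S, ?_, ?_⟩
  · have h1 : ∑ g ∈ W, DHJ.dens {x | g + φ x ∈ A} = A.card := by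
      have e1 : ∑ g ∈ W, DHJ.dens {x | g + φ x ∈ A} =
          DHJ.av (fun x => ∑ g ∈ W, DHJ.ind {x | g + φ x ∈ A} x) := by
        rw [DHJ.av_sum]
        rfl
      rw [e1]
      have e2 : (fun x => ∑ g ∈ W, DHJ.ind {x | g + φ x ∈ A} x) = fun _ => (A.card : ℝ) := by
        funext x
        have e3 : ∀ g ∈ W, DHJ.ind {x | g + φ x ∈ A} x = if g + φ x ∈ A then (1 : ℝ) else 0 := by
          intro g _
          by_cases h : g + φ x ∈ A
          · rw [if_pos h]; exact DHJ.ind_mem h
          · rw [if_neg h]; exact DHJ.ind_not_mem h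
        rw [Finset.sum_congr rfl e3, Finset.sum_boole]
        congr 1
        refine Finset.card_bij (fun g _ => g + φ x) ?_ ?_ ?_
        · intro g hg; exact (Finset.mem_filter.1 hg).2
        · intro g _ g' _ h; exact add_right_cancel h
        · intro a ha
          refine ⟨a + -(φ x), ?_, by simp⟩
          rw [Finset.mem_filter]
          exact ⟨hφ x a ha, by simpa using ha⟩
      rw [e2, DHJ.av_const]
    have h2 : ∑ g ∈ W, DHJ.dens {x | g + φ x ∈ A} ≤ S.card + W.card * δ := by
      rw [← Finset.sum_filter_add_sum_filter_not W (fun g => δ ≤ DHJ.dens {x | g + φ x ∈ A})]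
      refine add_le_add ?_ ?_
      · refine (Finset.sum_le_card_nsmul _ _ 1 fun g _ => DHJ.dens_le_one _).trans ?_
        rw [nsmul_eq_mul, mul_one]
      · refine (Finset.sum_le_card_nsmul _ _ δ fun g hg =>
          (not_le.1 (Finset.mem_filter.1 hg).2).le).trans ?_
        rw [nsmul_eq_mul]
        refine mul_le_mul_of_nonneg_right ?_ hδ.le
        exact_mod_cast Finset.card_filter_le _ _
    rw [h1] at h2
    nlinarith
  · intro g hg
    have h1 := (Finset.mem_filter.1 hg).2
    have h2 : ¬ DHJ.LineFree {x | g + φ x ∈ A} := fun h => absurd (hN _ h) (not_lt.2 h1)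
    unfold DHJ.LineFree at h2
    push Not at h2
    obtain ⟨u, hu, hb⟩ := h2
    exact ⟨u, hu, fun b => hb b⟩

theorem q_nsmul {G : Type} [AddGroup G] {q : G → ℝ} (h0 : q 0 = 0)
    (hadd : ∀ u v, q (u + v) ≤ q u + q v) (n : ℕ) (u : G) : q (n • u) ≤ n * q u := by
  induction n with
  | zero => simp [h0]
  | succ n ih =>
    rw [succ_nsmul]
    push_cast
    linarith [hadd (n • u) u]

theorem q_sum {G : Type} [AddCommGroup G] {q : G → ℝ} (h0 : q 0 = 0)
    (hadd : ∀ u v, q (u + v) ≤ q u + q v) {J : Type*} (s : Finset J) (f : J → G) :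
    q (∑ j ∈ s, f j) ≤ ∑ j ∈ s, q (f j) := by
  classical
  induction s using Finset.induction_on with
  | empty => simp [h0]
  | insert a s ha ih =>
    rw [Finset.sum_insert ha, Finset.sum_insert ha]
    linarith [hadd (f a) (∑ j ∈ s, f j)]

section
variable {G : Type} [AddCommGroup G] [Fintype G] [DecidableEq G]

/-- the patterns in `A` -/
def Pat (k p : ℕ) (A : Finset G) : Finset (G × (Fin k → G)) :=
  univ.filter fun z => ∀ ε : Fin k → Fin p, z.1 + ∑ i, (ε i : ℕ) • z.2 i ∈ A

theorem mem_Pat {k p : ℕ} {A : Finset G} {z : G × (Fin k → G)} :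
    z ∈ Pat k p A ↔ ∀ ε : Fin k → Fin p, z.1 + ∑ i, (ε i : ℕ) • z.2 i ∈ A := by
  simp [Pat]

/-- the point of the cube -/
def phi {N k p : ℕ} (h : Fin N × Fin k → G) (x : Fin N → Fin k → Fin p) : G :=
  ∑ n, ∑ i, (x n i : ℕ) • h (n, i)

/-- contribution of the fixed coordinates -/
def fixed {N k p : ℕ} (h : Fin N × Fin k → G) (u : Fin N → Option (Fin k → Fin p)) : G :=
  ∑ n, ((u n).elim 0 fun v => ∑ i, (v i : ℕ) • h (n, i))

/-- contribution of the moving coordinates -/
def moving {N k p : ℕ} (h : Fin N × Fin k → G) (u : Fin N → Option (Fin k → Fin p)) (i : Fin k) : G :=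
  ∑ n, if u n = none then h (n, i) else 0

theorem phi_pt {N k p : ℕ} (h : Fin N × Fin k → G) (u : Fin N → Option (Fin k → Fin p))
    (b : Fin k → Fin p) :
    phi h (DHJ.pt u b) = fixed h u + ∑ i, (b i : ℕ) • moving h u i := by
  unfold phi fixed moving DHJ.pt
  simp only [Finset.smul_sum]
  rw [Finset.sum_comm (s := (Finset.univ : Finset (Fin k))), ← Finset.sum_add_distrib]
  refine Finset.sum_congr rfl fun n _ => ?_
  cases hu : u n with
  | none => simp
  | some v => simp

/-- the pairs (directions, base point) for which `u` gives a line in `A` -/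
def Good (N k p : ℕ) (A B : Finset G) (u : Fin N → Option (Fin k → Fin p)) :
    Finset ((Fin N × Fin k → G) × G) :=
  univ.filter fun z => (∀ j, z.1 j ∈ B) ∧ ∀ b, z.2 + phi z.1 (DHJ.pt u b) ∈ A

theorem card_Good (N k p : ℕ) (A B : Finset G) (u : Fin (N + 1) → Option (Fin k → Fin p))
    (hu : ∃ i, u i = none) :
    (Good (N + 1) k p A B u).card ≤ (Pat k p A).card * B.card ^ (N * k) := by
  classical
  obtain ⟨n₀, hn₀⟩ := hu
  have hc : ((Pat k p A) ×ˢ Fintype.piFinset (fun _ : {n : Fin (N + 1) // n ≠ n₀} × Fin k => B)).card =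
      (Pat k p A).card * B.card ^ (N * k) := by
    rw [Finset.card_product, Fintype.card_piFinset]
    simp only [Finset.prod_const, Finset.card_univ, Fintype.card_prod, Fintype.card_fin]
    have : Fintype.card {n : Fin (N + 1) // n ≠ n₀} = N := by
      rw [Fintype.card_subtype_compl]
      simp
    rw [this]
  rw [← hc]
  refine Finset.card_le_card_of_injOn
    (fun z => ((z.2 + fixed z.1 u, moving z.1 u), fun j => z.1 (j.1.1, j.2))) ?_ ?_
  · intro z hz
    have hz := Finset.mem_coe.1 hz
    rw [Good, Finset.mem_filter] at hz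
    obtain ⟨-, h1, h2⟩ := hz
    refine Finset.mem_coe.2 (Finset.mem_product.2 ⟨?_, ?_⟩)
    · rw [mem_Pat]
      intro ε
      have := h2 ε
      rw [phi_pt, ← add_assoc] at this
      exact this
    · rw [Fintype.mem_piFinset]
      intro j
      exact h1 _
  · intro z hz z' hz' he
    have e1 : z.2 + fixed z.1 u = z'.2 + fixed z'.1 u := congrArg (fun w => w.1.1) he
    have e2 : moving z.1 u = moving z'.1 u := congrArg (fun w => w.1.2) he
    have e3 : (fun j : {n : Fin (N + 1) // n ≠ n₀} × Fin k => z.1 (j.1.1, j.2)) =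
      fun j => z'.1 (j.1.1, j.2) := congrArg (fun w => w.2) he
    have h4 : ∀ n, n ≠ n₀ → ∀ i, z.1 (n, i) = z'.1 (n, i) := by
      intro n hn i
      exact congrFun e3 (⟨n, hn⟩, i)
    have h5 : ∀ i, z.1 (n₀, i) = z'.1 (n₀, i) := by
      intro i
      have := congrFun e2 i
      unfold moving at this
      rw [← Finset.add_sum_erase _ _ (Finset.mem_univ n₀),
        ← Finset.add_sum_erase (a := n₀) _ (fun n => if u n = none then z'.1 (n, i) else 0)
          (Finset.mem_univ n₀), if_pos hn₀, if_pos hn₀] at this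
      have h6 : ∑ n ∈ (Finset.univ : Finset (Fin (N + 1))).erase n₀,
          (if u n = none then z.1 (n, i) else 0) =
          ∑ n ∈ (Finset.univ : Finset (Fin (N + 1))).erase n₀,
          (if u n = none then z'.1 (n, i) else 0) := by
        refine Finset.sum_congr rfl fun n hn => ?_
        rw [h4 n (Finset.ne_of_mem_erase hn) i]
      rw [h6] at this
      exact add_right_cancel this
    have h6 : z.1 = z'.1 := by
      funext j
      obtain ⟨n, i⟩ := j
      by_cases hn : n = n₀
      · rw [hn]; exact h5 i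
      · exact h4 n hn i
    rw [h6] at e1
    exact Prod.ext h6 (add_right_cancel e1)

end

/-- **Patterns in sets of small doubling.** -/
theorem pattern_count (k p : ℕ) (hp : 2 ≤ p) (K : ℝ) (hK : 1 ≤ K) : ∃ c : ℝ, 0 < c ∧
    ∀ (G : Type) [AddCommGroup G] [Fintype G] [DecidableEq G] (A : Finset G), A.Nonempty →
      ((A - A).card : ℝ) ≤ K * A.card →
      c * (A.card : ℝ) ^ (k + 1) ≤ ((Pat k p A).card : ℝ) := by
  classical
  have : NeZero p := ⟨by omega⟩
  have hK0 : 0 < K := by linarith
  set K' : ℝ := K ^ 5 with hK'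
  have hK'0 : 0 < K' := by positivity
  obtain ⟨N, hN⟩ := DHJ.density_hales_jewett (Fin k → Fin p) (1 / (2 * K')) (by positivity)
  have hN' := hN (Fin (N + 1)) (by rw [Fintype.card_fin]; omega)
  set M : ℝ := (N + 1 : ℕ) * (k * p : ℕ) with hM
  obtain ⟨m, hm⟩ := exists_nat_gt (4 * K' * M ^ 2)
  set C : ℝ := 2 * K' ^ m with hC
  have hC0 : 0 < C := by positivity
  set U : ℝ := ((Fintype.card (Fin (N + 1) → Option (Fin k → Fin p)) : ℕ) : ℝ) with hU
  have hU0 : 0 < U := by rw [hU]; exact_mod_cast Fintype.card_pos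
  refine ⟨1 / (2 * U * C ^ k), by positivity, ?_⟩
  intro G _ _ _ A hA hAA
  have hpos : (0 : ℝ) < A.card := by exact_mod_cast hA.card_pos
  set W : Finset G := A + ((-A + A) + (-A + A)) with hW
  have hWc : (W.card : ℝ) ≤ K' * A.card := by
    have e : W = 3 • A - 2 • A := by
      rw [hW, sub_eq_add_neg, show (3 : ℕ) • A = A + A + A by
        rw [show (3 : ℕ) = 2 + 1 by rfl, add_nsmul, two_nsmul, one_nsmul], two_nsmul, neg_add]
      ac_rfl
    have h1 := Finset.pluennecke_ruzsa_inequality_nsmul_sub_nsmul_sub hA A 3 2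
    rw [← e] at h1
    have h2 : (W.card : ℝ) ≤ ((A - A).card / A.card : ℝ) ^ 5 * A.card := by
      have := (NNRat.cast_le (K := ℝ)).2 h1
      push_cast at this
      exact this
    refine h2.trans ?_
    have h3 : ((A - A).card / A.card : ℝ) ≤ K := by
      rw [div_le_iff₀ hpos]; exact hAA
    refine mul_le_mul_of_nonneg_right ?_ hpos.le
    exact pow_le_pow_left₀ (by positivity) h3 5
  obtain ⟨B, q, hBne, hq0, hqz, hqa, hqB, hqM, hBc⟩ := almost_periods K' hK'0 M m hm A hA hWc
  have hB0 : (0 : ℝ) < B.card := by exact_mod_cast hBne.card_pos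
  -- the good pairs
  have key : ∀ h : Fin (N + 1) × Fin k → G, (∀ j, h j ∈ B) → ∃ S : Finset G,
      (A.card : ℝ) ≤ 2 * S.card ∧ ∀ g ∈ S, ∃ u : Fin (N + 1) → Option (Fin k → Fin p),
        (∃ i, u i = none) ∧ ∀ b, g + phi h (DHJ.pt u b) ∈ A := by
    intro h hh
    refine exists_lines (N + 1) (1 / (2 * K')) (by positivity) hN' A W ?_ (phi h) ?_
    · have : 2 * (1 / (2 * K')) * (W.card : ℝ) = W.card / K' := by field_simp
      rw [this, div_le_iff₀ hK'0]
      linarith
    · intro x a ha
      have h1 : q (phi h x) ≤ M := by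
        unfold phi
        refine (q_sum hqz hqa _ _).trans ?_
        have h2 : ∀ n ∈ (Finset.univ : Finset (Fin (N + 1))),
            q (∑ i, (x n i : ℕ) • h (n, i)) ≤ (k * p : ℕ) := by
          intro n _
          refine (q_sum hqz hqa _ _).trans ?_
          have h3 : ∀ i ∈ (Finset.univ : Finset (Fin k)), q ((x n i : ℕ) • h (n, i)) ≤ p := by
            intro i _
            refine (q_nsmul hqz hqa _ _).trans ?_
            have h4 := hqB _ (hh (n, i))
            have h5 : ((x n i : ℕ) : ℝ) ≤ p := by exact_mod_cast (x n i).2.le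
            have h6 : (0 : ℝ) ≤ ((x n i : ℕ) : ℝ) := Nat.cast_nonneg _
            nlinarith [hq0 (h (n, i))]
          refine (Finset.sum_le_card_nsmul _ _ _ h3).trans ?_
          simp
        refine (Finset.sum_le_card_nsmul _ _ _ h2).trans ?_
        rw [hM]
        simp
      have h2 := hqM _ h1
      rw [hW]
      refine Finset.add_mem_add ha ?_
      have h3 : -((-A + A) + (-A + A)) = (-A + A) + (-A + A) := by
        simp only [neg_add, neg_neg]
        ac_rfl
      rw [← h3]
      exact Finset.neg_mem_neg h2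
  -- count
  have hcount : (B.card : ℝ) ^ ((N + 1) * k) * A.card ≤
      2 * ∑ u : Fin (N + 1) → Option (Fin k → Fin p),
        if (∃ i, u i = none) then ((Good (N + 1) k p A B u).card : ℝ) else 0 := by
    choose S hS1 hS2 using key
    set Hs : Finset (Fin (N + 1) × Fin k → G) := Fintype.piFinset fun _ => B with hHs
    have hHc : (Hs.card : ℝ) = (B.card : ℝ) ^ ((N + 1) * k) := by
      rw [hHs, Fintype.card_piFinset]
      simp
    have hmem : ∀ h ∈ Hs, ∀ j, h j ∈ B := fun h hh => Fintype.mem_piFinset.1 hh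
    set P : Finset ((Fin (N + 1) × Fin k → G) × G) :=
      univ.filter fun z => (∀ j, z.1 j ∈ B) ∧ ∃ u : Fin (N + 1) → Option (Fin k → Fin p),
        (∃ i, u i = none) ∧ ∀ b, z.2 + phi z.1 (DHJ.pt u b) ∈ A with hP
    have h1 : (B.card : ℝ) ^ ((N + 1) * k) * A.card ≤ 2 * P.card := by
      have e1 : (P.card : ℝ) = ∑ h : Fin (N + 1) × Fin k → G,
          ((P.filter fun z => z.1 = h).card : ℝ) := by
        rw [Finset.card_eq_sum_card_fiberwise (f := fun z => z.1) (t := Finset.univ)
          (fun z _ => Finset.mem_coe.2 (Finset.mem_univ _))]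
        push_cast
        rfl
      have e2 : ∑ h ∈ Hs, (A.card : ℝ) / 2 ≤ ∑ h : Fin (N + 1) × Fin k → G,
          ((P.filter fun z => z.1 = h).card : ℝ) := by
        refine le_trans ?_ (Finset.sum_le_sum_of_subset_of_nonneg (Finset.subset_univ Hs)
          fun _ _ _ => Nat.cast_nonneg _)
        refine Finset.sum_le_sum fun h hh => ?_
        have e3 : (S h (hmem h hh)).card ≤ (P.filter fun z => z.1 = h).card := by
          refine Finset.card_le_card_of_injOn (fun g => (h, g)) ?_ ?_
          · intro g hg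
            refine Finset.mem_coe.2 ?_
            rw [Finset.mem_filter, hP, Finset.mem_filter]
            exact ⟨⟨Finset.mem_univ _, hmem h hh, hS2 h (hmem h hh) g (Finset.mem_coe.1 hg)⟩, rfl⟩
          · intro g _ g' _ e
            exact congrArg Prod.snd e
        have e4 : ((S h (hmem h hh)).card : ℝ) ≤ ((P.filter fun z => z.1 = h).card : ℝ) := by
          exact_mod_cast e3
        have e5 := hS1 h (hmem h hh)
        linarith
      rw [Finset.sum_const, nsmul_eq_mul, hHc] at e2
      rw [e1]
      linarith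
    refine h1.trans ?_
    have h2 : P.card ≤ ∑ u : Fin (N + 1) → Option (Fin k → Fin p),
        if (∃ i, u i = none) then (Good (N + 1) k p A B u).card else 0 := by
      have : P ⊆ (Finset.univ : Finset (Fin (N + 1) → Option (Fin k → Fin p))).biUnion
          fun u => if (∃ i, u i = none) then Good (N + 1) k p A B u else ∅ := by
        intro z hz
        rw [hP, Finset.mem_filter] at hz
        obtain ⟨-, hz1, u, hu, hz2⟩ := hz
        rw [Finset.mem_biUnion]
        refine ⟨u, Finset.mem_univ _, ?_⟩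
        rw [if_pos hu, Good, Finset.mem_filter]
        exact ⟨Finset.mem_univ _, hz1, hz2⟩
      refine (Finset.card_le_card this).trans (Finset.card_biUnion_le.trans ?_)
      refine Finset.sum_le_sum fun u _ => ?_
      split_ifs <;> simp
    have h3 : (P.card : ℝ) ≤ ∑ u : Fin (N + 1) → Option (Fin k → Fin p),
        if (∃ i, u i = none) then ((Good (N + 1) k p A B u).card : ℝ) else 0 := by
      have := (Nat.cast_le (α := ℝ)).2 h2
      push_cast at this
      exact this
    linarith
  have hupper : ∑ u : Fin (N + 1) → Option (Fin k → Fin p),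
        (if (∃ i, u i = none) then ((Good (N + 1) k p A B u).card : ℝ) else 0) ≤
      U * ((Pat k p A).card * (B.card : ℝ) ^ (N * k)) := by
    have h1 : ∀ u ∈ (Finset.univ : Finset (Fin (N + 1) → Option (Fin k → Fin p))),
        (if (∃ i, u i = none) then ((Good (N + 1) k p A B u).card : ℝ) else 0) ≤
        (Pat k p A).card * (B.card : ℝ) ^ (N * k) := by
      intro u _
      split_ifs with hu
      · exact_mod_cast card_Good N k p A B u hu
      · positivity
    refine (Finset.sum_le_card_nsmul _ _ _ h1).trans ?_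
    rw [nsmul_eq_mul, Finset.card_univ]
  have hfin : (B.card : ℝ) ^ (N * k) * ((B.card : ℝ) ^ k * A.card) ≤
      (B.card : ℝ) ^ (N * k) * (2 * U * (Pat k p A).card) := by
    calc (B.card : ℝ) ^ (N * k) * ((B.card : ℝ) ^ k * A.card)
        = (B.card : ℝ) ^ ((N + 1) * k) * A.card := by rw [add_mul, one_mul, pow_add]; ring
      _ ≤ _ := hcount
      _ ≤ 2 * (U * ((Pat k p A).card * (B.card : ℝ) ^ (N * k))) := by gcongr
      _ = _ := by ring
  have hfin2 : (B.card : ℝ) ^ k * A.card ≤ 2 * U * (Pat k p A).card :=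
    le_of_mul_le_mul_left hfin (by positivity)
  have h7 : (A.card : ℝ) ^ k ≤ C ^ k * (B.card : ℝ) ^ k := by
    rw [← mul_pow]
    exact pow_le_pow_left₀ hpos.le hBc k
  rw [div_mul_eq_mul_div, one_mul, div_le_iff₀ (by positivity)]
  calc (A.card : ℝ) ^ (k + 1) = (A.card : ℝ) ^ k * A.card := pow_succ _ _
    _ ≤ (C ^ k * (B.card : ℝ) ^ k) * A.card := by gcongr
    _ = C ^ k * ((B.card : ℝ) ^ k * A.card) := by ring
    _ ≤ C ^ k * (2 * U * (Pat k p A).card) := by gcongr
    _ = _ := by ring

end Run7.h50.EN
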