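import Mathlib
import Pool.Agent.H217R3.AK.Bsg
import Pool.Agent.Run7.h50.EN.Pat

/-!
# Graphs without `K_{s,t}`: structured subsets of neighbourhoods
-/

set_option autoImplicit false
set_option linter.unusedSectionVars false
set_option linter.unusedVariables false

namespace Run7.h50.EN

open Finset
open scoped Pointwise

section
variable {G : Type} [AddCommGroup G] [Fintype G] [DecidableEq G]

/-- the points of a pattern -/
def ptn {k p : ℕ} (z : G × (Fin k → G)) (ε : Fin k → Fin p) : G := z.1 + ∑ i, (ε i : ℕ) • z.2 i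

/-- patterns with different points -/
def PPat (k p : ℕ) (A : Finset G) : Finset (G × (Fin k → G)) :=
  (Pat k p A).filter fun z => Function.Injective (ptn (p := p) z)

theorem mem_PPat {k p : ℕ} {A : Finset G} {z : G × (Fin k → G)} :
    z ∈ PPat k p A ↔ (∀ ε : Fin k → Fin p, ptn z ε ∈ A) ∧ Function.Injective (ptn (p := p) z) := by
  unfold PPat ptn
  rw [Finset.mem_filter, mem_Pat]

theorem improper (k p : ℕ) (hp : 2 ≤ p)
    (hG : ∀ (g : G) (j : ℕ), 0 < j → j < p → j • g = 0 → g = 0) (A : Finset G) :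
    (Pat k p A).card ≤ (PPat k p A).card +
      (p ^ k * p ^ k) * (A.card * (A - A).card ^ (k - 1)) := by
  classical
  have : NeZero p := ⟨by omega⟩
  have h1 : (Pat k p A).card = (PPat k p A).card +
      ((Pat k p A).filter fun z => ¬ Function.Injective (ptn (p := p) z)).card := by
    unfold PPat
    rw [Finset.card_filter_add_card_filter_not]
  rw [h1]
  refine Nat.add_le_add_left ?_ _
  set Q : (Fin k → Fin p) × (Fin k → Fin p) → Finset (G × (Fin k → G)) := fun e =>
    if e.1 ≠ e.2 then (Pat k p A).filter fun z => ptn z e.1 = ptn z e.2 else ∅ with hQ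
  have h2 : ((Pat k p A).filter fun z => ¬ Function.Injective (ptn (p := p) z)) ⊆
      (Finset.univ : Finset ((Fin k → Fin p) × (Fin k → Fin p))).biUnion Q := by
    intro z hz
    rw [Finset.mem_filter] at hz
    obtain ⟨hz1, hz2⟩ := hz
    unfold Function.Injective at hz2
    push Not at hz2
    obtain ⟨e, e', he, hne⟩ := hz2
    rw [Finset.mem_biUnion]
    refine ⟨(e, e'), Finset.mem_univ _, ?_⟩
    rw [hQ]
    simp only
    rw [if_pos hne, Finset.mem_filter]
    exact ⟨hz1, he⟩
  refine (Finset.card_le_card h2).trans (Finset.card_biUnion_le.trans ?_)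
  have h3 : ∀ e ∈ (Finset.univ : Finset ((Fin k → Fin p) × (Fin k → Fin p))),
      (Q e).card ≤ A.card * (A - A).card ^ (k - 1) := by
    intro e _
    obtain ⟨e, e'⟩ := e
    rw [hQ]
    simp only
    split_ifs with hne
    swap
    · simp
    obtain ⟨i₀, hi₀⟩ := Function.ne_iff.1 hne
    have hc : (A ×ˢ Fintype.piFinset (fun _ : {i : Fin k // i ≠ i₀} => A - A)).card =
        A.card * (A - A).card ^ (k - 1) := by
      rw [Finset.card_product, Fintype.card_piFinset]
      simp only [Finset.prod_const, Finset.card_univ]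
      have : Fintype.card {i : Fin k // i ≠ i₀} = k - 1 := by
        rw [Fintype.card_subtype_compl]
        simp
      rw [this]
    rw [← hc]
    refine Finset.card_le_card_of_injOn (fun z => (z.1, fun i => z.2 i.1)) ?_ ?_
    · intro z hz
      have hz := Finset.mem_coe.1 hz
      rw [Finset.mem_filter, mem_Pat] at hz
      have ha : z.1 ∈ A := by
        have := hz.1 0
        simpa using this
      refine Finset.mem_coe.2 (Finset.mem_product.2 ⟨ha, ?_⟩)
      rw [Fintype.mem_piFinset]
      intro i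
      have h4 := hz.1 (Pi.single i.1 1)
      have h5 : ∑ j, (((Pi.single i.1 (1 : Fin p) : Fin k → Fin p) j : Fin p) : ℕ) • z.2 j = z.2 i.1 := by
        rw [Finset.sum_eq_single i.1]
        · rw [Pi.single_eq_same]
          have : ((1 : Fin p) : ℕ) = 1 := by
            rw [Fin.val_one', Nat.mod_eq_of_lt (by omega)]
          rw [this, one_nsmul]
        · intro j _ hj
          rw [Pi.single_eq_of_ne hj]
          simp
        · intro h; exact absurd (Finset.mem_univ _) h
      rw [h5] at h4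
      rw [Finset.mem_sub]
      exact ⟨z.1 + z.2 i.1, h4, z.1, ha, by simp⟩
    · intro z hz z' hz' he
      have hz := (Finset.mem_filter.1 (Finset.mem_coe.1 hz)).2
      have hz' := (Finset.mem_filter.1 (Finset.mem_coe.1 hz')).2
      obtain ⟨e1, e20⟩ := Prod.ext_iff.1 he
      have e1 : z.1 = z'.1 := e1
      have e2 : ∀ i, i ≠ i₀ → z.2 i = z'.2 i := fun i hi => congrFun e20 ⟨i, hi⟩
      have e3 : z.2 i₀ = z'.2 i₀ := by
        unfold ptn at hz hz'
        have hz := add_left_cancel hz
        have hz' := add_left_cancel hz'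
        rw [← Finset.add_sum_erase _ _ (Finset.mem_univ i₀),
          ← Finset.add_sum_erase _ (fun i => (e' i : ℕ) • z.2 i) (Finset.mem_univ i₀)] at hz
        rw [← Finset.add_sum_erase _ _ (Finset.mem_univ i₀),
          ← Finset.add_sum_erase _ (fun i => (e' i : ℕ) • z'.2 i) (Finset.mem_univ i₀)] at hz'
        have r1 : ∀ f : Fin k → Fin p,
            ∑ i ∈ (Finset.univ : Finset (Fin k)).erase i₀, (f i : ℕ) • z.2 i =
            ∑ i ∈ (Finset.univ : Finset (Fin k)).erase i₀, (f i : ℕ) • z'.2 i := by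
          intro f
          refine Finset.sum_congr rfl fun i hi => ?_
          rw [e2 i (Finset.ne_of_mem_erase hi)]
        rw [r1 e, r1 e'] at hz
        have hd : (e i₀ : ℕ) • (z.2 i₀ - z'.2 i₀) = (e' i₀ : ℕ) • (z.2 i₀ - z'.2 i₀) := by
          rw [smul_sub, smul_sub, sub_eq_sub_iff_add_eq_add]
          have h6 := congrArg₂ (· - ·) hz hz'
          simp only at h6
          rw [add_sub_add_right_eq_sub, add_sub_add_right_eq_sub, sub_eq_sub_iff_add_eq_add] at h6
          rw [h6]
        have hne' : (e i₀ : ℕ) ≠ (e' i₀ : ℕ) := fun h => hi₀ (Fin.ext h)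
        refine sub_eq_zero.1 ?_
        rcases lt_or_gt_of_ne hne' with h | h
        · refine hG _ ((e' i₀ : ℕ) - (e i₀ : ℕ)) (by omega) (by have := (e' i₀).2; omega) ?_
          have h7 : (e' i₀ : ℕ) = ((e' i₀ : ℕ) - (e i₀ : ℕ)) + (e i₀ : ℕ) := by omega
          rw [h7, add_nsmul] at hd
          exact right_eq_add.1 hd
        · refine hG _ ((e i₀ : ℕ) - (e' i₀ : ℕ)) (by omega) (by have := (e i₀).2; omega) ?_
          have h7 : (e i₀ : ℕ) = ((e i₀ : ℕ) - (e' i₀ : ℕ)) + (e' i₀ : ℕ) := by omega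
          rw [h7, add_nsmul] at hd
          exact right_eq_add.1 hd.symm
      refine Prod.ext e1 ?_
      funext i
      by_cases hi : i = i₀
      · rw [hi]; exact e3
      · exact e2 i hi
  refine (Finset.sum_le_card_nsmul _ _ _ h3).trans (le_of_eq ?_)
  rw [Finset.card_univ, smul_eq_mul, Fintype.card_prod, Fintype.card_fun, Fintype.card_fin,
    Fintype.card_fin]

/-- double counting -/
theorem sum_PPat (k p s t : ℕ) (ht : 1 ≤ t) (hs : s ≤ p ^ k) {V : Type} [Fintype V] (lab : V → G)
    (hlab : Function.Injective lab) (H : SimpleGraph V)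
    (hfree : (completeBipartiteGraph (Fin s) (Fin t)).Free H)
    (A : V → Finset G) (hA : ∀ x, ∀ g ∈ A x, ∃ y, H.Adj x y ∧ lab y = g) :
    ∑ x, (PPat k p (A x)).card ≤ (t - 1) * Fintype.card G ^ (k + 1) := by
  classical
  have h1 : ∑ x, (PPat k p (A x)).card =
      ∑ z : G × (Fin k → G), (univ.filter fun x : V => z ∈ PPat k p (A x)).card := by
    have e1 : ∀ x, (PPat k p (A x)).card = ∑ z : G × (Fin k → G), if z ∈ PPat k p (A x) then 1 else 0 := by
      intro x
      rw [Finset.sum_boole]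
      simp
    simp only [e1]
    rw [Finset.sum_comm]
    refine Finset.sum_congr rfl fun z _ => ?_
    rw [Finset.sum_boole]
    simp
  rw [h1]
  have h2 : ∀ z ∈ (Finset.univ : Finset (G × (Fin k → G))),
      (univ.filter fun x : V => z ∈ PPat k p (A x)).card ≤ t - 1 := by
    intro z _
    by_contra hcon
    have h3 : t ≤ (univ.filter fun x : V => z ∈ PPat k p (A x)).card := by omega
    obtain ⟨T, hT, hTc⟩ := Finset.exists_subset_card_eq h3
    have hTm : ∀ x ∈ T, z ∈ PPat k p (A x) := fun x hx => (Finset.mem_filter.1 (hT hx)).2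
    have ex : ∃ x : Fin t → V, Function.Injective x ∧ ∀ j, x j ∈ T := by
      refine ⟨fun j => ((Finset.equivFinOfCardEq hTc).symm j : V), ?_, fun j => Subtype.prop _⟩
      intro j j' h
      exact (Finset.equivFinOfCardEq hTc).symm.injective (Subtype.ext h)
    obtain ⟨x, hxi, hxT⟩ := ex
    have hs' : Fintype.card (Fin s) ≤ Fintype.card (Fin k → Fin p) := by
      rw [Fintype.card_fun, Fintype.card_fin, Fintype.card_fin, Fintype.card_fin]; exact hs
    obtain ⟨emb⟩ := Function.Embedding.nonempty_of_card_le hs'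
    have hxt : 0 < t := ht
    have hy : ∀ ε : Fin k → Fin p, ∃ y, lab y = ptn z ε := by
      intro ε
      have := (mem_PPat.1 (hTm _ (hxT ⟨0, hxt⟩))).1 ε
      obtain ⟨y, -, hy⟩ := hA _ _ this
      exact ⟨y, hy⟩
    choose y hy using hy
    have hadj : ∀ ε j, H.Adj (x j) (y ε) := by
      intro ε j
      have := (mem_PPat.1 (hTm _ (hxT j))).1 ε
      obtain ⟨y', h1, h2⟩ := hA _ _ this
      have : y' = y ε := hlab (by rw [h2, hy])
      rw [← this]
      exact h1
    have hyi : Function.Injective y := by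
      intro ε ε' h
      refine (mem_PPat.1 (hTm _ (hxT ⟨0, hxt⟩))).2 ?_
      rw [← hy ε, ← hy ε', h]
    refine hfree ⟨⟨⟨Sum.elim (fun i => y (emb i)) x, ?_⟩, ?_⟩⟩
    · intro a b hab
      rcases a with a | a <;> rcases b with b | b <;> simp at hab ⊢
      · exact (hadj _ _).symm
      · exact hadj _ _
    · intro a b hab
      rcases a with a | a <;> rcases b with b | b
      · have : y (emb a) = y (emb b) := hab
        rw [emb.injective (hyi this)]
      · exfalso
        have h : y (emb a) = x b := hab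
        have := hadj (emb a) b
        rw [h] at this
        exact H.loopless.irrefl _ this
      · exfalso
        have h : x a = y (emb b) := hab
        have := hadj (emb b) a
        rw [← h] at this
        exact H.loopless.irrefl _ this
      · have : x a = x b := hab
        rw [hxi this]
  refine (Finset.sum_le_card_nsmul _ _ _ h2).trans (le_of_eq ?_)
  rw [Finset.card_univ, smul_eq_mul, Fintype.card_prod, Fintype.card_fun, Fintype.card_fin,
    mul_comm, pow_succ, mul_comm (Fintype.card G)]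

end

/-- subsets of small doubling of the neighbourhoods -/
theorem sum_doubling (k p s t : ℕ) (hk : 1 ≤ k) (hp : 2 ≤ p) (ht : 1 ≤ t) (hs : s ≤ p ^ k) (K : ℝ)
    (hK : 1 ≤ K) : ∃ C : ℝ, 0 < C ∧ ∀ (G V : Type) [AddCommGroup G] [Fintype G] [DecidableEq G]
      [Fintype V] (lab : V → G) (H : SimpleGraph V) (A : V → Finset G),
      (∀ (g : G) (j : ℕ), 0 < j → j < p → j • g = 0 → g = 0) →
      Function.Injective lab → (completeBipartiteGraph (Fin s) (Fin t)).Free H →
      (∀ x, ∀ g ∈ A x, ∃ y, H.Adj x y ∧ lab y = g) →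
      (∀ x, ((A x - A x).card : ℝ) ≤ K * (A x).card) →
      ∑ x, ((A x).card : ℝ) ^ (k + 1) ≤ C * (Fintype.card G : ℝ) ^ (k + 1) := by
  classical
  obtain ⟨c, hc, hpat⟩ := pattern_count k p hp K hK
  set I0 : ℝ := (p : ℝ) ^ k * (p : ℝ) ^ k * K ^ (k - 1) with hI0
  have hI0pos : 0 ≤ I0 := by positivity
  refine ⟨2 / c * t + (2 * I0 / c) ^ (k + 1), by positivity, ?_⟩
  intro G V _ _ _ _ lab H A hG hlab hfree hA hAA
  have hone : ∀ x, ((A x).card : ℝ) ^ (k + 1) ≤ 2 / c * (PPat k p (A x)).card + (2 * I0 / c) ^ (k + 1) := by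
    intro x
    rcases (A x).eq_empty_or_nonempty with h | h
    · rw [h]
      simp only [Finset.card_empty, Nat.cast_zero]
      rw [zero_pow (by omega)]
      positivity
    · have hpos : (0 : ℝ) < (A x).card := by exact_mod_cast h.card_pos
      have h1 := hpat G (A x) h (hAA x)
      have h2 : ((Pat k p (A x)).card : ℝ) ≤ (PPat k p (A x)).card +
          ((p : ℝ) ^ k * (p : ℝ) ^ k) * ((A x).card * ((A x - A x).card : ℝ) ^ (k - 1)) := by
        exact_mod_cast improper k p hp hG (A x)
      have h3 : ((p : ℝ) ^ k * (p : ℝ) ^ k) * ((A x).card * ((A x - A x).card : ℝ) ^ (k - 1)) ≤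
          I0 * ((A x).card : ℝ) ^ k := by
        have e1 : ((A x - A x).card : ℝ) ^ (k - 1) ≤ (K * (A x).card) ^ (k - 1) :=
          pow_le_pow_left₀ (Nat.cast_nonneg _) (hAA x) _
        calc ((p : ℝ) ^ k * (p : ℝ) ^ k) * ((A x).card * ((A x - A x).card : ℝ) ^ (k - 1))
            ≤ ((p : ℝ) ^ k * (p : ℝ) ^ k) * ((A x).card * (K * (A x).card) ^ (k - 1)) := by gcongr
          _ = I0 * ((A x).card * ((A x).card : ℝ) ^ (k - 1)) := by rw [hI0, mul_pow]; ring
          _ = I0 * ((A x).card : ℝ) ^ k := by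
            rw [← pow_succ', Nat.sub_add_cancel hk]
      have h4 : c * ((A x).card : ℝ) ^ (k + 1) ≤ (PPat k p (A x)).card + I0 * ((A x).card : ℝ) ^ k := by
        linarith
      rcases le_or_gt (2 * I0 / c) ((A x).card : ℝ) with h5 | h5
      · have h6 : I0 ≤ c / 2 * (A x).card := by
          rw [div_le_iff₀ hc] at h5
          linarith
        have h7 : I0 * ((A x).card : ℝ) ^ k ≤ c / 2 * ((A x).card : ℝ) ^ (k + 1) := by
          calc I0 * ((A x).card : ℝ) ^ k ≤ (c / 2 * (A x).card) * ((A x).card : ℝ) ^ k := by gcongr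
            _ = _ := by rw [pow_succ]; ring
        have h8 : ((A x).card : ℝ) ^ (k + 1) ≤ 2 / c * (PPat k p (A x)).card := by
          rw [div_mul_eq_mul_div, le_div_iff₀ hc]
          linarith
        have h9 : (0 : ℝ) ≤ (2 * I0 / c) ^ (k + 1) := by positivity
        linarith
      · have h6 : ((A x).card : ℝ) ^ (k + 1) ≤ (2 * I0 / c) ^ (k + 1) :=
          pow_le_pow_left₀ hpos.le h5.le _
        have h9 : (0 : ℝ) ≤ 2 / c * (PPat k p (A x)).card := by positivity
        linarith
  have hsum := sum_PPat k p s t ht hs lab hlab H hfree A hA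
  have hsum' : ∑ x, ((PPat k p (A x)).card : ℝ) ≤ t * (Fintype.card G : ℝ) ^ (k + 1) := by
    have : ((∑ x, (PPat k p (A x)).card : ℕ) : ℝ) ≤ (((t - 1) * Fintype.card G ^ (k + 1) : ℕ) : ℝ) := by
      exact_mod_cast hsum
    push_cast at this
    refine this.trans ?_
    have h1 : ((t - 1 : ℕ) : ℝ) ≤ t := by exact_mod_cast Nat.sub_le _ _
    gcongr
  have hV : (Fintype.card V : ℝ) ≤ (Fintype.card G : ℝ) ^ (k + 1) := by
    have h1 : Fintype.card V ≤ Fintype.card G := Fintype.card_le_of_injective lab hlab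
    have h2 : Fintype.card G ≤ Fintype.card G ^ (k + 1) := Nat.le_self_pow (by omega) _
    exact_mod_cast h1.trans h2
  calc ∑ x, ((A x).card : ℝ) ^ (k + 1)
      ≤ ∑ x, (2 / c * (PPat k p (A x)).card + (2 * I0 / c) ^ (k + 1)) :=
        Finset.sum_le_sum fun x _ => hone x
    _ = 2 / c * ∑ x, ((PPat k p (A x)).card : ℝ) + Fintype.card V * (2 * I0 / c) ^ (k + 1) := by
        rw [Finset.sum_add_distrib, ← Finset.mul_sum, Finset.sum_const, nsmul_eq_mul,
          Finset.card_univ]
    _ ≤ 2 / c * (t * (Fintype.card G : ℝ) ^ (k + 1)) +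
        (Fintype.card G : ℝ) ^ (k + 1) * (2 * I0 / c) ^ (k + 1) := by gcongr
    _ = _ := by ring

/-- **Main theorem**: subsets of large energy of the neighbourhoods -/
theorem sum_energy (k p s t : ℕ) (hk : 1 ≤ k) (hp : 2 ≤ p) (ht : 1 ≤ t) (hs : s ≤ p ^ k) (K : ℝ)
    (hK : 0 < K) : ∃ C : ℝ, 0 < C ∧ ∀ (G V : Type) [AddCommGroup G] [Fintype G] [DecidableEq G]
      [Fintype V] (lab : V → G) (H : SimpleGraph V) (A : V → Finset V),
      (∀ (g : G) (j : ℕ), 0 < j → j < p → j • g = 0 → g = 0) →
      Function.Injective lab → (completeBipartiteGraph (Fin s) (Fin t)).Free H →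
      (∀ x, ∀ y ∈ A x, H.Adj x y) →
      (∀ x, ((A x).card : ℝ) ^ 3 ≤ K * (((A x).image lab).addEnergy ((A x).image lab) : ℕ)) →
      ∑ x, ((A x).card : ℝ) ^ (k + 1) ≤ C * (Fintype.card G : ℝ) ^ (k + 1) := by
  classical
  set K1 : ℝ := max 1 (2 ^ 22 * K ^ 10) with hK1
  obtain ⟨C, hC, hmain⟩ := sum_doubling k p s t hk hp ht hs K1 (le_max_left _ _)
  refine ⟨(8 * K) ^ (k + 1) * C, by positivity, ?_⟩
  intro G V _ _ _ _ lab H A hG hlab hfree hA hE
  have hcard : ∀ x, ((A x).image lab).card = (A x).card := fun x =>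
    Finset.card_image_of_injective _ hlab
  have hB : ∀ x, ∃ B : Finset G, B ⊆ (A x).image lab ∧ ((A x).card : ℝ) ≤ 8 * K * B.card ∧
      ((B - B).card : ℝ) ≤ K1 * B.card := by
    intro x
    rcases (A x).eq_empty_or_nonempty with h | h
    · refine ⟨∅, Finset.empty_subset _, ?_, ?_⟩
      · rw [h]; simp
      · simp
    · obtain ⟨B, hB1, hB2, hB3, hB4⟩ := Pool.Agent.H217R3.AK.bsg ((A x).image lab) (h.image lab) K hK
        (by rw [hcard]; exact hE x)
      rw [hcard] at hB3
      refine ⟨B, hB1, hB3, hB4.trans ?_⟩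
      exact mul_le_mul_of_nonneg_right (le_max_right _ _) (Nat.cast_nonneg _)
  choose B hB1 hB2 hB3 using hB
  have h1 := hmain G V lab H B hG hlab hfree (fun x g hg => by
    obtain ⟨y, hy, hyg⟩ := Finset.mem_image.1 (hB1 x hg)
    exact ⟨y, hA x y hy, hyg⟩) hB3
  calc ∑ x, ((A x).card : ℝ) ^ (k + 1) ≤ ∑ x, (8 * K) ^ (k + 1) * ((B x).card : ℝ) ^ (k + 1) := by
        refine Finset.sum_le_sum fun x _ => ?_
        rw [← mul_pow]
        exact pow_le_pow_left₀ (Nat.cast_nonneg _) (hB2 x) _
    _ = (8 * K) ^ (k + 1) * ∑ x, ((B x).card : ℝ) ^ (k + 1) := by rw [Finset.mul_sum]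
    _ ≤ (8 * K) ^ (k + 1) * (C * (Fintype.card G : ℝ) ^ (k + 1)) := by gcongr
    _ = _ := by ring

end Run7.h50.EN
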