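import Mathlib
import Pool.Agent.Helper868.DHJ
import Pool.Agent.Run7.h50.EN.Pat
import Pool.Agent.Run7.h50.EN.Approx
import Pool.Agent.Run7.h50.EN.NBsg

/-!
# Progressions and cubes in sets of small doubling in non-commutative groups
-/

set_option autoImplicit false
set_option linter.unusedSectionVars false
set_option linter.unusedVariables false

namespace Run7.h50.EN

open Finset
open scoped Pointwise
open Pool.Agent.Helper868

open Classical in
/-- abstract double counting -/
theorem double_count {ζ G V m : Type} [Fintype V] [Fintype m] (Z : Finset ζ) (s t : ℕ)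
    (ht : 1 ≤ t) (hs : s ≤ Fintype.card m) (f : ζ → m → G)
    (hf : ∀ z ∈ Z, Function.Injective (f z)) (lab : V → G)
    (hlab : Function.Injective lab) (H : SimpleGraph V)
    (hfree : (completeBipartiteGraph (Fin s) (Fin t)).Free H)
    (A : V → Finset G) (hA : ∀ x, ∀ g ∈ A x, ∃ y, H.Adj x y ∧ lab y = g) :
    ∑ x, (Z.filter fun z => ∀ i, f z i ∈ A x).card ≤ (t - 1) * Z.card := by
  have h1 : ∑ x, (Z.filter fun z => ∀ i, f z i ∈ A x).card =
      ∑ z ∈ Z, (univ.filter fun x : V => ∀ i, f z i ∈ A x).card := by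
    simp only [Finset.card_filter]
    rw [Finset.sum_comm]
  rw [h1]
  have h2 : ∀ z ∈ Z, (univ.filter fun x : V => ∀ i, f z i ∈ A x).card ≤ t - 1 := by
    intro z hz
    by_contra hcon
    have h3 : t ≤ (univ.filter fun x : V => ∀ i, f z i ∈ A x).card := by omega
    obtain ⟨T, hT, hTc⟩ := Finset.exists_subset_card_eq h3
    have hTm : ∀ x ∈ T, ∀ i, f z i ∈ A x := fun x hx => (Finset.mem_filter.1 (hT hx)).2
    have ex : ∃ x : Fin t → V, Function.Injective x ∧ ∀ j, x j ∈ T := by
      refine ⟨fun j => ((Finset.equivFinOfCardEq hTc).symm j : V), ?_, fun j => Subtype.prop _⟩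
      intro j j' h
      exact (Finset.equivFinOfCardEq hTc).symm.injective (Subtype.ext h)
    obtain ⟨x, hxi, hxT⟩ := ex
    have hs' : Fintype.card (Fin s) ≤ Fintype.card m := by rw [Fintype.card_fin]; exact hs
    obtain ⟨emb⟩ := Function.Embedding.nonempty_of_card_le hs'
    have hxt : 0 < t := ht
    have hy : ∀ ε : m, ∃ y, lab y = f z ε := by
      intro ε
      obtain ⟨y, -, hy⟩ := hA _ _ (hTm _ (hxT ⟨0, hxt⟩) ε)
      exact ⟨y, hy⟩
    choose y hy using hy
    have hadj : ∀ ε j, H.Adj (x j) (y ε) := by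
      intro ε j
      obtain ⟨y', h1, h2⟩ := hA _ _ (hTm _ (hxT j) ε)
      have : y' = y ε := hlab (by rw [h2, hy])
      rw [← this]
      exact h1
    have hyi : Function.Injective y := by
      intro ε ε' h
      refine hf z hz ?_
      rw [← hy ε, ← hy ε', h]
    refine hfree ⟨⟨⟨Sum.elim (fun i => y (emb i)) x, ?_⟩, ?_⟩⟩
    · intro a b hab
      rcases a with a | a <;> rcases b with b | b <;> simp at hab ⊢
      · exact (hadj _ _).symm
      · exact hadj _ _
    · intro a b hab
      rcases a with a | a <;> rcases b with b | b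
      · have : y (emb a) = y (emb b) := hab
        rw [emb.injective (hyi this)]
      · exfalso
        have h : y (emb a) = x b := hab
        have := hadj (emb a) b
        rw [h] at this
        exact H.loopless.irrefl _ this
      · exfalso
        have h : x a = y (emb b) := hab
        have := hadj (emb b) a
        rw [← h] at this
        exact H.loopless.irrefl _ this
      · have : x a = x b := hab
        rw [hxi this]
  refine (Finset.sum_le_card_nsmul _ _ _ h2).trans (le_of_eq ?_)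
  rw [smul_eq_mul, mul_comm]

/-- absorbing the degenerate patterns -/
theorem absorb (m : ℕ) (c a P I : ℝ) (hc : 0 < c) (ha : 0 ≤ a) (hP : 0 ≤ P) (hI : 0 ≤ I)
    (h : c * a ^ (m + 1) ≤ P + I * a ^ m) : a ^ (m + 1) ≤ 2 / c * P + (2 * I / c) ^ (m + 1) := by
  rcases le_or_gt (2 * I / c) a with h5 | h5
  · have h6 : I ≤ c / 2 * a := by
      rw [div_le_iff₀ hc] at h5
      linarith
    have h7 : I * a ^ m ≤ c / 2 * a ^ (m + 1) := by
      calc I * a ^ m ≤ (c / 2 * a) * a ^ m := by gcongr
        _ = _ := by rw [pow_succ]; ring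
    have h8 : a ^ (m + 1) ≤ 2 / c * P := by
      rw [div_mul_eq_mul_div, le_div_iff₀ hc]
      linarith
    have h9 : (0 : ℝ) ≤ (2 * I / c) ^ (m + 1) := by positivity
    linarith
  · have h6 : a ^ (m + 1) ≤ (2 * I / c) ^ (m + 1) := pow_le_pow_left₀ ha h5.le _
    have h9 : (0 : ℝ) ≤ 2 / c * P := by positivity
    linarith

section
variable {G : Type} [AddGroup G] [Fintype G] [DecidableEq G]

/-- the progressions in `A` with step `w h` -/
def Prg (s w : ℕ) (A : Finset G) : Finset (G × G) :=
  univ.filter fun z => ∀ b : Fin s, z.1 + (w * (b : ℕ)) • z.2 ∈ A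

theorem mem_Prg {s w : ℕ} {A : Finset G} {z : G × G} :
    z ∈ Prg s w A ↔ ∀ b : Fin s, z.1 + (w * (b : ℕ)) • z.2 ∈ A := by
  simp [Prg]

end

/-- **Progressions in approximate groups.** -/
theorem prog_count (s : ℕ) (hs : 1 ≤ s) (K : ℝ) (hK : 1 ≤ K) : ∃ (N : ℕ) (c : ℝ), 0 < c ∧
    ∀ (G : Type) [AddGroup G] [Fintype G] [DecidableEq G] (A : Finset G), A.Nonempty →
      ((A + ((-A + A) + (-A + A))).card : ℝ) ≤ K * A.card →
      c * (A.card : ℝ) ^ 2 ≤ ∑ w ∈ Finset.Icc 1 N, ((Prg s w A).card : ℝ) := by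
  classical
  have : NeZero s := ⟨by omega⟩
  have hK0 : 0 < K := by linarith
  obtain ⟨N, hN⟩ := DHJ.density_hales_jewett (Fin s) (1 / (2 * K)) (by positivity)
  have hN' := hN (Fin N) (by rw [Fintype.card_fin])
  set M : ℝ := (N : ℝ) * s with hM
  obtain ⟨m, hm⟩ := exists_nat_gt (4 * K * M ^ 2)
  set C : ℝ := 2 * K ^ m with hC
  have hC0 : 0 < C := by positivity
  refine ⟨N, 1 / (2 * (N * s + 1) * C), by positivity, ?_⟩
  intro G _ _ _ A hA hW
  have hpos : (0 : ℝ) < A.card := by exact_mod_cast hA.card_pos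
  obtain ⟨B, q, hBne, hq0, hqz, hqa, hqB, hqM, hBc⟩ := almost_periods K hK0 M m hm A hA hW
  have hB0 : (0 : ℝ) < B.card := by exact_mod_cast hBne.card_pos
  have hsumx : ∀ x : Fin N → Fin s, (∑ n, (x n : ℕ)) ≤ N * s := by
    intro x
    refine (Finset.sum_le_card_nsmul _ _ s fun n _ => (x n).2.le).trans ?_
    simp
  have key : ∀ h ∈ B, ∃ S : Finset G, (A.card : ℝ) ≤ 2 * S.card ∧
      ∀ g ∈ S, ∃ c ∈ Finset.range (N * s + 1), ∃ w ∈ Finset.Icc 1 N,
        ∀ b : Fin s, g + (c + w * (b : ℕ)) • h ∈ A := by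
    intro h hh
    obtain ⟨S, hS1, hS2⟩ := exists_lines (β := Fin s) N (1 / (2 * K)) (by positivity) hN' A
      (A + ((-A + A) + (-A + A))) (by
        have : 2 * (1 / (2 * K)) * ((A + ((-A + A) + (-A + A))).card : ℝ) =
          (A + ((-A + A) + (-A + A))).card / K := by field_simp
        rw [this, div_le_iff₀ hK0]
        linarith) (fun x => (∑ n, (x n : ℕ)) • h) (by
        intro x a ha
        have h1 : q ((∑ n, (x n : ℕ)) • h) ≤ M := by
          refine (q_nsmul hqz hqa _ _).trans ?_
          have h2 := hqB h hh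
          have h3 : (((∑ n, (x n : ℕ) : ℕ)) : ℝ) ≤ M := by
            rw [hM]
            exact_mod_cast hsumx x
          have h4 : (0 : ℝ) ≤ ((∑ n, (x n : ℕ) : ℕ) : ℝ) := Nat.cast_nonneg _
          nlinarith [hq0 h]
        have h2 := hqM _ h1
        refine Finset.add_mem_add ha ?_
        have h3 : -((-A + A) + (-A + A)) = (-A + A) + (-A + A) := by
          simp only [neg_add_rev, neg_neg]
        rw [← h3]
        exact Finset.neg_mem_neg h2)
    refine ⟨S, hS1, ?_⟩
    intro g hg
    obtain ⟨u, ⟨n₀, hn₀⟩, hb⟩ := hS2 g hg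
    refine ⟨∑ n, ((u n).elim 0 fun v => (v : ℕ)), ?_, (univ.filter fun n => u n = none).card, ?_, ?_⟩
    · rw [Finset.mem_range, Nat.lt_succ_iff]
      refine (Finset.sum_le_card_nsmul _ _ s fun n _ => ?_).trans (by simp)
      cases u n with
      | none => simp
      | some v => exact v.2.le
    · rw [Finset.mem_Icc]
      constructor
      · exact Finset.card_pos.2 ⟨n₀, by simpa using hn₀⟩
      · refine (Finset.card_filter_le _ _).trans ?_
        simp
    · intro b
      have h1 := hb b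
      have h2 : ∑ n, ((DHJ.pt u b n : Fin s) : ℕ) = (∑ n, ((u n).elim 0 fun v => (v : ℕ))) +
          (univ.filter fun n => u n = none).card * (b : ℕ) := by
        rw [Finset.card_filter, Finset.sum_mul, ← Finset.sum_add_distrib]
        refine Finset.sum_congr rfl fun n _ => ?_
        unfold DHJ.pt
        cases u n with
        | none => simp
        | some v => simp
      rw [h2] at h1
      exact h1
  -- counting pairs
  set Gd : ℕ → ℕ → Finset (G × G) := fun c w =>
    univ.filter fun z => ∀ b : Fin s, z.1 + (c + w * (b : ℕ)) • z.2 ∈ A with hGd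
  have hGdle : ∀ c w, (Gd c w).card ≤ (Prg s w A).card := by
    intro c w
    refine Finset.card_le_card_of_injOn (fun z => (z.1 + c • z.2, z.2)) ?_ ?_
    · intro z hz
      have hz := (Finset.mem_filter.1 (Finset.mem_coe.1 hz)).2
      refine Finset.mem_coe.2 (mem_Prg.2 fun b => ?_)
      have := hz b
      rw [add_nsmul, ← add_assoc] at this
      exact this
    · intro z _ z' _ h
      obtain ⟨e1, e2⟩ := Prod.ext_iff.1 h
      have e2 : z.2 = z'.2 := e2
      have e1 : z.1 + c • z.2 = z'.1 + c • z'.2 := e1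
      rw [e2] at e1
      exact Prod.ext (add_right_cancel e1) e2
  set P : Finset (G × G) := univ.filter fun z => z.2 ∈ B ∧ ∃ c ∈ Finset.range (N * s + 1),
    ∃ w ∈ Finset.Icc 1 N, ∀ b : Fin s, z.1 + (c + w * (b : ℕ)) • z.2 ∈ A with hP
  have h1 : (B.card : ℝ) * A.card ≤ 2 * P.card := by
    choose S hS1 hS2 using key
    have e1 : (P.card : ℝ) = ∑ h : G, ((P.filter fun z => z.2 = h).card : ℝ) := by
      rw [Finset.card_eq_sum_card_fiberwise (f := fun z => z.2) (t := Finset.univ)
        (fun z _ => Finset.mem_coe.2 (Finset.mem_univ _))]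
      push_cast
      rfl
    have e2 : ∑ h ∈ B, (A.card : ℝ) / 2 ≤ ∑ h : G, ((P.filter fun z => z.2 = h).card : ℝ) := by
      refine le_trans ?_ (Finset.sum_le_sum_of_subset_of_nonneg (Finset.subset_univ B)
        fun _ _ _ => Nat.cast_nonneg _)
      refine Finset.sum_le_sum fun h hh => ?_
      have e3 : (S h hh).card ≤ (P.filter fun z => z.2 = h).card := by
        refine Finset.card_le_card_of_injOn (fun g => (g, h)) ?_ ?_
        · intro g hg
          refine Finset.mem_coe.2 ?_
          rw [Finset.mem_filter, hP, Finset.mem_filter]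
          exact ⟨⟨Finset.mem_univ _, hh, hS2 h hh g (Finset.mem_coe.1 hg)⟩, rfl⟩
        · intro g _ g' _ e
          exact congrArg Prod.fst e
      have e4 : ((S h hh).card : ℝ) ≤ ((P.filter fun z => z.2 = h).card : ℝ) := by
        exact_mod_cast e3
      have e5 := hS1 h hh
      linarith
    rw [Finset.sum_const, nsmul_eq_mul] at e2
    rw [e1]
    linarith
  have h2 : P.card ≤ ∑ c ∈ Finset.range (N * s + 1), ∑ w ∈ Finset.Icc 1 N, (Prg s w A).card := by
    have : P ⊆ (Finset.range (N * s + 1)).biUnion fun c => (Finset.Icc 1 N).biUnion fun w => Gd c w := by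
      intro z hz
      rw [hP, Finset.mem_filter] at hz
      obtain ⟨-, -, c, hc, w, hw, hb⟩ := hz
      rw [Finset.mem_biUnion]
      refine ⟨c, hc, ?_⟩
      rw [Finset.mem_biUnion]
      refine ⟨w, hw, ?_⟩
      rw [hGd]
      exact Finset.mem_filter.2 ⟨Finset.mem_univ _, hb⟩
    refine (Finset.card_le_card this).trans (Finset.card_biUnion_le.trans ?_)
    refine Finset.sum_le_sum fun c _ => ?_
    refine Finset.card_biUnion_le.trans ?_
    exact Finset.sum_le_sum fun w _ => hGdle c w
  have h3 : (P.card : ℝ) ≤ (N * s + 1) * ∑ w ∈ Finset.Icc 1 N, ((Prg s w A).card : ℝ) := by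
    rw [Finset.sum_const, Finset.card_range, smul_eq_mul] at h2
    exact_mod_cast h2
  rw [div_mul_eq_mul_div, one_mul, div_le_iff₀ (by positivity)]
  calc (A.card : ℝ) ^ 2 = A.card * A.card := sq _
    _ ≤ (C * B.card) * A.card := by gcongr
    _ = C * (B.card * A.card) := by ring
    _ ≤ C * (2 * ((N * s + 1) * ∑ w ∈ Finset.Icc 1 N, ((Prg s w A).card : ℝ))) :=
        mul_le_mul_of_nonneg_left (by linarith) hC0.le
    _ = _ := by ring

set_option maxHeartbeats 1000000 in
open Classical in
/-- sets of small doubling, groups without small torsion -/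
theorem base_prog (s t : ℕ) (ht : 1 ≤ t) (K : ℝ) (hK : 1 ≤ K) : ∃ (P : ℕ) (C : ℝ), 0 < C ∧
    ∀ (G V : Type) [AddGroup G] [Fintype G] [DecidableEq G] [Fintype V] (lab : V → G)
      (H : SimpleGraph V) (A : V → Finset G),
      (∀ (g : G) (j : ℕ), 0 < j → j < P → j • g = 0 → g = 0) →
      Function.Injective lab → (completeBipartiteGraph (Fin s) (Fin t)).Free H →
      (∀ x, ∀ g ∈ A x, ∃ y, H.Adj x y ∧ lab y = g) →
      (∀ x, ((A x + -(A x)).card : ℝ) ≤ K * (A x).card) →
      ∑ x, ((A x).card : ℝ) ^ 2 ≤ C * (Fintype.card G : ℝ) ^ 2 := by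
  have hK0 : 0 < K := by linarith
  set s' : ℕ := s + 1 with hs'
  set K₂ : ℝ := (2 * K ^ 2) ^ 10 * (4 * K ^ 4) with hK₂
  have hK₂1 : 1 ≤ K₂ := by
    have h1 : (1 : ℝ) ≤ K ^ 2 := one_le_pow₀ hK
    have h2 : (1 : ℝ) ≤ K ^ 4 := one_le_pow₀ hK
    have h3 : (1 : ℝ) ≤ (2 * K ^ 2) ^ 10 := one_le_pow₀ (by linarith)
    nlinarith
  obtain ⟨N, c, hc, hprog⟩ := prog_count s' (by omega) K₂ hK₂1
  set C₁ : ℝ := 2 / c * (N * t) + (2 * N / c) ^ 2 with hC₁
  have hC₁0 : 0 ≤ C₁ := by positivity
  refine ⟨N * s' + 1, (4 * K ^ 4) ^ 2 * (C₁ + 1), by positivity, ?_⟩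
  intro G V _ _ _ _ lab H A hG hlab hfree hA hAA
  have hX : ∀ x, ∃ X ⊆ A x, ((A x).card : ℝ) ≤ 4 * K ^ 4 * X.card ∧
      (X.Nonempty → ((X + ((-X + X) + (-X + X))).card : ℝ) ≤ K₂ * X.card) := by
    intro x
    rcases (A x).eq_empty_or_nonempty with h | h
    · refine ⟨∅, Finset.empty_subset _, ?_, fun h => absurd h (by simp)⟩
      rw [h]; simp
    · obtain ⟨X, h1, h2, h3, h4⟩ := exists_part h hK0 (hAA x)
      exact ⟨X, h1, h3, fun _ => h4⟩
  choose X hX1 hX2 hX3 using hX
  set Z : Finset (G × G) := univ.filter fun z => z.2 ≠ 0 with hZ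
  set F : ℕ → V → Finset (G × G) := fun w x =>
    Z.filter fun z => ∀ b : Fin s', z.1 + (w * (b : ℕ)) • z.2 ∈ X x with hF
  have hdc : ∀ w ∈ Finset.Icc 1 N, ∑ x, ((F w x).card : ℝ) ≤ t * (Fintype.card G : ℝ) ^ 2 := by
    intro w hw
    rw [Finset.mem_Icc] at hw
    have h1 := double_count Z s t ht (m := Fin s') (by rw [Fintype.card_fin]; omega)
      (fun z b => z.1 + (w * (b : ℕ)) • z.2) (by
        intro z hz
        have hz0 := (Finset.mem_filter.1 hz).2
        have aux : ∀ b b' : Fin s', (b : ℕ) < b' →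
            z.1 + (w * (b : ℕ)) • z.2 ≠ z.1 + (w * (b' : ℕ)) • z.2 := by
          intro b b' hbb h
          have h1 := add_left_cancel h
          have h2 : w * (b' : ℕ) = w * ((b' : ℕ) - b) + w * (b : ℕ) := by
            rw [← mul_add]; congr 1; omega
          rw [h2, add_nsmul] at h1
          have h3 : (w * ((b' : ℕ) - b)) • z.2 = 0 := right_eq_add.1 h1
          refine hz0 (hG z.2 _ ?_ ?_ h3)
          · exact Nat.mul_pos (by omega) (by omega)
          · have h4 : (b' : ℕ) - b ≤ s' := by have := b'.2; omega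
            have h5 : w * ((b' : ℕ) - b) ≤ N * s' := Nat.mul_le_mul hw.2 h4
            omega
        intro b b' hbb
        by_contra hne
        have hne' : (b : ℕ) ≠ b' := fun h => hne (Fin.ext h)
        rcases lt_or_gt_of_ne hne' with h | h
        · exact aux b b' h hbb
        · exact aux b' b h hbb.symm) lab hlab H hfree X
      (fun x g hg => hA x g (hX1 x hg))
    have h1' : ∑ x, (F w x).card ≤ (t - 1) * Z.card := by
      convert h1
    have h2 : ∑ x, ((F w x).card : ℝ) ≤ (((t - 1) * Z.card : ℕ) : ℝ) := by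
      exact_mod_cast h1'
    refine h2.trans ?_
    have h3 : Z.card ≤ Fintype.card G ^ 2 := by
      refine (Finset.card_le_univ Z).trans ?_
      rw [Fintype.card_prod, sq]
    have h4 : (t - 1) * Z.card ≤ t * Fintype.card G ^ 2 := Nat.mul_le_mul (by omega) h3
    exact_mod_cast h4
  have hone : ∀ x, ((X x).card : ℝ) ^ 2 ≤
      2 / c * (∑ w ∈ Finset.Icc 1 N, ((F w x).card : ℝ)) + (2 * N / c) ^ 2 := by
    intro x
    rcases (X x).eq_empty_or_nonempty with h | h
    · have hX0 : ((X x).card : ℝ) = 0 := by rw [h, Finset.card_empty, Nat.cast_zero]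
      rw [hX0, zero_pow (by norm_num)]
      have e1 : (0 : ℝ) ≤ ∑ w ∈ Finset.Icc 1 N, ((F w x).card : ℝ) :=
        Finset.sum_nonneg fun w _ => Nat.cast_nonneg _
      have e2 : (0 : ℝ) ≤ 2 / c := by positivity
      exact add_nonneg (mul_nonneg e2 e1) (sq_nonneg _)
    · have h1 := hprog G (X x) h (hX3 x h)
      refine absorb 1 c _ _ N hc (Nat.cast_nonneg _)
        (Finset.sum_nonneg fun w _ => Nat.cast_nonneg _) (Nat.cast_nonneg _) ?_
      refine h1.trans ?_
      rw [pow_one]
      have h2 : ∀ w ∈ Finset.Icc 1 N, ((Prg s' w (X x)).card : ℝ) ≤ (F w x).card + (X x).card := by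
        intro w _
        have h3 : (Prg s' w (X x)).card ≤ (F w x).card + (X x).card := by
          have h4 : Prg s' w (X x) ⊆ F w x ∪ (X x).image fun a => (a, (0 : G)) := by
            intro z hz
            rw [mem_Prg] at hz
            rw [Finset.mem_union]
            by_cases h0 : z.2 = 0
            · right
              have h5 := hz ⟨0, by omega⟩
              simp only [mul_zero, zero_nsmul, add_zero] at h5
              exact Finset.mem_image.2 ⟨z.1, h5, Prod.ext rfl h0.symm⟩
            · left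
              rw [hF]
              exact Finset.mem_filter.2 ⟨Finset.mem_filter.2 ⟨Finset.mem_univ _, h0⟩, hz⟩
          refine (Finset.card_le_card h4).trans ((Finset.card_union_le _ _).trans ?_)
          exact Nat.add_le_add_left Finset.card_image_le _
        exact_mod_cast h3
      refine (Finset.sum_le_sum h2).trans (le_of_eq ?_)
      rw [Finset.sum_add_distrib, Finset.sum_const, nsmul_eq_mul]
      simp
  have hV : (Fintype.card V : ℝ) ≤ (Fintype.card G : ℝ) ^ 2 := by
    have h1 : Fintype.card V ≤ Fintype.card G := Fintype.card_le_of_injective lab hlab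
    have h2 : Fintype.card G ≤ Fintype.card G ^ 2 := Nat.le_self_pow (by omega) _
    exact_mod_cast h1.trans h2
  have hXsum : ∑ x, ((X x).card : ℝ) ^ 2 ≤ C₁ * (Fintype.card G : ℝ) ^ 2 := by
    calc ∑ x, ((X x).card : ℝ) ^ 2
        ≤ ∑ x, (2 / c * (∑ w ∈ Finset.Icc 1 N, ((F w x).card : ℝ)) + (2 * N / c) ^ 2) :=
          Finset.sum_le_sum fun x _ => hone x
      _ = 2 / c * ∑ w ∈ Finset.Icc 1 N, ∑ x, ((F w x).card : ℝ) +
          Fintype.card V * (2 * N / c) ^ 2 := by
          rw [Finset.sum_add_distrib, ← Finset.mul_sum, Finset.sum_comm, Finset.sum_const,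
            nsmul_eq_mul, Finset.card_univ]
      _ ≤ 2 / c * ∑ w ∈ Finset.Icc 1 N, t * (Fintype.card G : ℝ) ^ 2 +
          (Fintype.card G : ℝ) ^ 2 * (2 * N / c) ^ 2 := by
          refine add_le_add ?_ ?_
          · exact mul_le_mul_of_nonneg_left (Finset.sum_le_sum hdc) (by positivity)
          · exact mul_le_mul_of_nonneg_right hV (by positivity)
      _ = _ := by
          rw [Finset.sum_const, nsmul_eq_mul, Nat.card_Icc, Nat.add_sub_cancel]
          ring
  calc ∑ x, ((A x).card : ℝ) ^ 2 ≤ ∑ x, (4 * K ^ 4) ^ 2 * ((X x).card : ℝ) ^ 2 := by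
        refine Finset.sum_le_sum fun x _ => ?_
        rw [← mul_pow]
        exact pow_le_pow_left₀ (Nat.cast_nonneg _) (hX2 x) 2
    _ = (4 * K ^ 4) ^ 2 * ∑ x, ((X x).card : ℝ) ^ 2 := by rw [Finset.mul_sum]
    _ ≤ (4 * K ^ 4) ^ 2 * (C₁ * (Fintype.card G : ℝ) ^ 2) := by gcongr
    _ ≤ (4 * K ^ 4) ^ 2 * ((C₁ + 1) * (Fintype.card G : ℝ) ^ 2) := by
        gcongr
        linarith
    _ = _ := by ring

end Run7.h50.EN
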