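import Mathlib
import Pool.Agent.Run7.h50.EN.NPat

/-!
# Cubes in sets of small doubling in non-commutative groups
-/

set_option autoImplicit false
set_option linter.unusedSectionVars false
set_option linter.unusedVariables false

namespace Run7.h50.EN

open Finset
open scoped Pointwise

section
variable {G : Type} [AddGroup G]

/-- the vertices `ε_1 h_1 + (ε_2 h_2 + … + a)` of a cube -/
def cpt : (k : ℕ) → G → (Fin k → G) → (Fin k → Bool) → G
  | 0, a, _, _ => a
  | k + 1, a, h, ε => (if ε 0 then h 0 else 0) + cpt k a (Fin.tail h) (Fin.tail ε)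

theorem cpt_congr (k : ℕ) (a : G) (h h' : Fin k → G) (ε : Fin k → Bool)
    (H : ∀ j, ε j = true → h j = h' j) : cpt k a h ε = cpt k a h' ε := by
  induction k with
  | zero => rfl
  | succ k ih =>
    unfold cpt
    rw [ih (Fin.tail h) (Fin.tail h') (Fin.tail ε) (fun j hj => H j.succ hj)]
    congr 1
    by_cases h0 : ε 0 = true
    · rw [if_pos h0, if_pos h0, H 0 h0]
    · rw [if_neg h0, if_neg h0]

theorem cpt_inj (k : ℕ) (a : G) (h h' : Fin k → G) (ε : Fin k → Bool) (i₀ : Fin k)
    (hi : ε i₀ = true) (H : ∀ j, j ≠ i₀ → h j = h' j) (he : cpt k a h ε = cpt k a h' ε) :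
    h i₀ = h' i₀ := by
  induction k with
  | zero => exact i₀.elim0
  | succ k ih =>
    unfold cpt at he
    induction i₀ using Fin.cases with
    | zero =>
      rw [if_pos hi, if_pos hi, cpt_congr k a (Fin.tail h) (Fin.tail h') (Fin.tail ε)
        (fun j _ => H j.succ (Fin.succ_ne_zero j))] at he
      exact add_right_cancel he
    | succ i =>
      rw [H 0 (Fin.succ_ne_zero i).symm] at he
      exact ih (Fin.tail h) (Fin.tail h') (Fin.tail ε) i hi
        (fun j hj => H j.succ (fun e => hj (Fin.succ_injective _ e))) (add_left_cancel he)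

theorem cpt_false (k : ℕ) (a : G) (h : Fin k → G) : cpt k a h (fun _ => false) = a := by
  induction k with
  | zero => rfl
  | succ k ih =>
    unfold cpt
    have : Fin.tail (fun _ : Fin (k + 1) => false) = fun _ => false := rfl
    rw [this, ih]
    simp

theorem cpt_single (k : ℕ) (a : G) (h : Fin k → G) (i : Fin k) :
    cpt k a h (fun j => decide (j = i)) = h i + a := by
  induction k with
  | zero => exact i.elim0
  | succ k ih =>
    unfold cpt
    induction i using Fin.cases with
    | zero =>
      have : Fin.tail (fun j : Fin (k + 1) => decide (j = 0)) = fun _ => false := by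
        funext j
        simp [Fin.tail]
      rw [this, cpt_false]
      simp
    | succ i =>
      have : Fin.tail (fun j : Fin (k + 1) => decide (j = i.succ)) = fun j => decide (j = i) := by
        funext j
        simp [Fin.tail]
      rw [this, ih]
      have h0 : decide ((0 : Fin (k + 1)) = i.succ) = false := by
        simp [(Fin.succ_ne_zero i).symm]
      show (if decide ((0 : Fin (k + 1)) = i.succ) = true then h 0 else 0) + (Fin.tail h i + a) =
        h i.succ + a
      rw [h0]
      simp [Fin.tail]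

end

section
variable {G : Type} [AddGroup G] [Fintype G] [DecidableEq G]

/-- the cubes in `A` -/
def Cub (k : ℕ) (A : Finset G) : Finset (G × (Fin k → G)) :=
  univ.filter fun z => ∀ ε : Fin k → Bool, cpt k z.1 z.2 ε ∈ A

theorem mem_Cub {k : ℕ} {A : Finset G} {z : G × (Fin k → G)} :
    z ∈ Cub k A ↔ ∀ ε : Fin k → Bool, cpt k z.1 z.2 ε ∈ A := by
  simp [Cub]

/-- the elements `a` of `A` with `h + a ∈ A` -/
def shl (A : Finset G) (h : G) : Finset G := A.filter fun a => h + a ∈ A

theorem card_Cub_succ (k : ℕ) (A : Finset G) :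
    (Cub (k + 1) A).card = ∑ h : G, (Cub k (shl A h)).card := by
  classical
  rw [Finset.card_eq_sum_card_fiberwise (f := fun z : G × (Fin (k + 1) → G) => z.2 0)
    (t := Finset.univ) (fun z _ => Finset.mem_coe.2 (Finset.mem_univ _))]
  refine Finset.sum_congr rfl fun h _ => ?_
  refine Finset.card_bij (fun z _ => (z.1, Fin.tail z.2)) ?_ ?_ ?_
  · intro z hz
    rw [Finset.mem_filter, mem_Cub] at hz
    obtain ⟨hz1, hz2⟩ := hz
    rw [mem_Cub]
    intro ε
    unfold shl
    rw [Finset.mem_filter]
    constructor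
    · have := hz1 (Fin.cons false ε)
      unfold cpt at this
      simpa using this
    · have := hz1 (Fin.cons true ε)
      unfold cpt at this
      rw [hz2] at this
      simpa using this
  · intro z hz z' hz' he
    have h1 := (Finset.mem_filter.1 hz).2
    have h2 := (Finset.mem_filter.1 hz').2
    obtain ⟨e1, e2⟩ := Prod.ext_iff.1 he
    refine Prod.ext e1 ?_
    rw [← Fin.cons_self_tail z.2, ← Fin.cons_self_tail z'.2]
    have e2 : Fin.tail z.2 = Fin.tail z'.2 := e2
    have h1 : z.2 0 = h := h1
    have h2 : z'.2 0 = h := h2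
    rw [h1, h2, e2]
  · intro z hz
    refine ⟨(z.1, Fin.cons h z.2), ?_, ?_⟩
    · rw [Finset.mem_filter, mem_Cub]
      refine ⟨?_, by simp⟩
      intro ε
      rw [mem_Cub] at hz
      have h1 := hz (Fin.tail ε)
      unfold shl at h1
      rw [Finset.mem_filter] at h1
      unfold cpt
      simp only [Fin.cons_zero, Fin.tail_cons]
      split_ifs
      · exact h1.2
      · rw [zero_add]; exact h1.1
    · simp

theorem sum_shl {A Q : Finset G} (hQ : A + -A ⊆ Q) : ∑ h ∈ Q, (shl A h).card = A.card ^ 2 := by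
  classical
  have h1 : ∑ h ∈ Q, (shl A h).card = ∑ h : G, (shl A h).card := by
    refine Finset.sum_subset (Finset.subset_univ _) ?_
    intro h _ hh
    rw [Finset.card_eq_zero, Finset.eq_empty_iff_forall_notMem]
    intro a ha
    unfold shl at ha
    rw [Finset.mem_filter] at ha
    refine hh (hQ ?_)
    have := Finset.add_mem_add ha.2 (Finset.neg_mem_neg ha.1)
    simpa using this
  rw [h1]
  unfold shl
  simp only [Finset.card_filter]
  rw [Finset.sum_comm]
  have h2 : ∀ a ∈ A, ∑ h : G, (if h + a ∈ A then 1 else 0) = A.card := by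
    intro a _
    have h3 := Equiv.sum_comp (Equiv.addRight a) (fun x => if x ∈ A then (1 : ℕ) else 0)
    have h4 : ∑ h : G, (if h + a ∈ A then 1 else 0) =
        ∑ h : G, (fun x => if x ∈ A then (1 : ℕ) else 0) ((Equiv.addRight a) h) := by
      exact Finset.sum_congr rfl fun h _ => rfl
    refine (h4.trans h3).trans ?_
    simp
  rw [Finset.sum_congr rfl h2]
  simp [sq]

theorem card_Cub (k : ℕ) (Q : Finset G) (A : Finset G) (hQ : A + -A ⊆ Q) :
    (A.card : ℝ) ^ 2 ^ k ≤ (Q.card : ℝ) ^ (2 ^ k - 1 - k) * (Cub k A).card := by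
  induction k generalizing A with
  | zero =>
    have h1 : (Cub 0 A).card = A.card := by
      refine Finset.card_bij (fun z _ => z.1) ?_ ?_ ?_
      · intro z hz
        rw [mem_Cub] at hz
        exact hz (fun _ => false)
      · intro z _ z' _ h
        exact Prod.ext h (Subsingleton.elim _ _)
      · intro a ha
        exact ⟨(a, fun i => i.elim0), mem_Cub.2 fun _ => ha, rfl⟩
    rw [h1]
    simp
  | succ k ih =>
    rcases Finset.eq_empty_or_nonempty A with h0 | h0
    · rw [h0, Finset.card_empty, Nat.cast_zero, zero_pow (by positivity)]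
      positivity
    have hQpos : (0 : ℝ) < Q.card := by
      have : (A + -A).Nonempty := h0.add (by simpa using h0)
      exact_mod_cast (this.mono hQ).card_pos
    have h1 : ∀ h : G, ((shl A h).card : ℝ) ^ 2 ^ k ≤
        (Q.card : ℝ) ^ (2 ^ k - 1 - k) * (Cub k (shl A h)).card := by
      intro h
      refine ih (shl A h) ?_
      refine Finset.Subset.trans ?_ hQ
      have : shl A h ⊆ A := Finset.filter_subset _ _
      exact Finset.add_subset_add this (Finset.neg_subset_neg this)
    have hk : k + 1 ≤ 2 ^ k := Nat.lt_two_pow_self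
    have h2 : (∑ h ∈ Q, ((shl A h).card : ℝ)) ^ 2 ^ k ≤
        (Q.card : ℝ) ^ (2 ^ k - 1) * ∑ h ∈ Q, ((shl A h).card : ℝ) ^ 2 ^ k := by
      have := pow_sum_div_card_le_sum_pow (s := Q) (f := fun h => ((shl A h).card : ℝ))
        (fun _ _ => Nat.cast_nonneg _) (2 ^ k - 1)
      rw [Nat.sub_add_cancel (by omega : 1 ≤ 2 ^ k), div_le_iff₀ (by positivity)] at this
      linarith
    have h3 : (∑ h ∈ Q, ((shl A h).card : ℝ)) = (A.card : ℝ) ^ 2 := by
      exact_mod_cast sum_shl hQ
    rw [h3, ← pow_mul] at h2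
    have h4 : ∑ h ∈ Q, ((shl A h).card : ℝ) ^ 2 ^ k ≤
        (Q.card : ℝ) ^ (2 ^ k - 1 - k) * (Cub (k + 1) A).card := by
      calc ∑ h ∈ Q, ((shl A h).card : ℝ) ^ 2 ^ k
          ≤ ∑ h ∈ Q, (Q.card : ℝ) ^ (2 ^ k - 1 - k) * (Cub k (shl A h)).card :=
            Finset.sum_le_sum fun h _ => h1 h
        _ = (Q.card : ℝ) ^ (2 ^ k - 1 - k) * ∑ h ∈ Q, ((Cub k (shl A h)).card : ℝ) := by
            rw [Finset.mul_sum]
        _ ≤ (Q.card : ℝ) ^ (2 ^ k - 1 - k) * ∑ h : G, ((Cub k (shl A h)).card : ℝ) := by
            refine mul_le_mul_of_nonneg_left ?_ (by positivity)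
            exact Finset.sum_le_sum_of_subset_of_nonneg (Finset.subset_univ _)
              fun _ _ _ => Nat.cast_nonneg _
        _ = _ := by rw [card_Cub_succ]; push_cast; rfl
    have h5 : 2 * 2 ^ k = 2 ^ (k + 1) := by rw [pow_succ]; ring
    rw [h5] at h2
    calc (A.card : ℝ) ^ 2 ^ (k + 1) ≤ (Q.card : ℝ) ^ (2 ^ k - 1) *
          ((Q.card : ℝ) ^ (2 ^ k - 1 - k) * (Cub (k + 1) A).card) :=
          h2.trans (mul_le_mul_of_nonneg_left h4 (by positivity))
      _ = (Q.card : ℝ) ^ ((2 ^ k - 1) + (2 ^ k - 1 - k)) * (Cub (k + 1) A).card := by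
          rw [pow_add]; ring
      _ = _ := by
          congr 2
          omega

/-- cubes with coinciding vertices -/
theorem improper_cub (k : ℕ) (A : Finset G) :
    ((Cub k A).filter fun z => ¬ Function.Injective (cpt k z.1 z.2)).card ≤
      (2 ^ k * 2 ^ k) * (A.card * (A + -A).card ^ (k - 1)) := by
  classical
  set Q : (Fin k → Bool) × (Fin k → Bool) → Finset (G × (Fin k → G)) := fun e =>
    if (∃ i, e.1 i = true ∧ e.2 i = false) then
      (Cub k A).filter fun z => cpt k z.1 z.2 e.1 = cpt k z.1 z.2 e.2 else ∅ with hQ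
  have h2 : ((Cub k A).filter fun z => ¬ Function.Injective (cpt k z.1 z.2)) ⊆
      (Finset.univ : Finset ((Fin k → Bool) × (Fin k → Bool))).biUnion Q := by
    intro z hz
    rw [Finset.mem_filter] at hz
    obtain ⟨hz1, hz2⟩ := hz
    unfold Function.Injective at hz2
    push Not at hz2
    obtain ⟨e, e', he, hne⟩ := hz2
    obtain ⟨i, hi⟩ := Function.ne_iff.1 hne
    rw [Finset.mem_biUnion]
    rcases hei : e i with _ | _
    · have hei' : e' i = true := by
        rcases h : e' i with _ | _
        · exact absurd (hei.trans h.symm) hi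
        · rfl
      refine ⟨(e', e), Finset.mem_univ _, ?_⟩
      rw [hQ]
      simp only
      rw [if_pos ⟨i, hei', hei⟩, Finset.mem_filter]
      exact ⟨hz1, he.symm⟩
    · have hei' : e' i = false := by
        rcases h : e' i with _ | _
        · rfl
        · exact absurd (hei.trans h.symm) hi
      refine ⟨(e, e'), Finset.mem_univ _, ?_⟩
      rw [hQ]
      simp only
      rw [if_pos ⟨i, hei, hei'⟩, Finset.mem_filter]
      exact ⟨hz1, he⟩
  refine (Finset.card_le_card h2).trans (Finset.card_biUnion_le.trans ?_)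
  have h3 : ∀ e ∈ (Finset.univ : Finset ((Fin k → Bool) × (Fin k → Bool))),
      (Q e).card ≤ A.card * (A + -A).card ^ (k - 1) := by
    intro e _
    obtain ⟨e, e'⟩ := e
    rw [hQ]
    simp only
    split_ifs with hne
    swap
    · simp
    obtain ⟨i₀, hi₀, hi₀'⟩ := hne
    have hc : (A ×ˢ Fintype.piFinset (fun _ : {i : Fin k // i ≠ i₀} => A + -A)).card =
        A.card * (A + -A).card ^ (k - 1) := by
      rw [Finset.card_product, Fintype.card_piFinset]
      simp only [Finset.prod_const, Finset.card_univ]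
      have : Fintype.card {i : Fin k // i ≠ i₀} = k - 1 := by
        rw [Fintype.card_subtype_compl]
        simp
      rw [this]
    rw [← hc]
    refine Finset.card_le_card_of_injOn (fun z => (z.1, fun i => z.2 i.1)) ?_ ?_
    · intro z hz
      have hz := Finset.mem_coe.1 hz
      rw [Finset.mem_filter, mem_Cub] at hz
      have ha : z.1 ∈ A := by
        have := hz.1 (fun _ => false)
        rwa [cpt_false] at this
      refine Finset.mem_coe.2 (Finset.mem_product.2 ⟨ha, ?_⟩)
      rw [Fintype.mem_piFinset]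
      intro i
      have h4 := hz.1 (fun j => decide (j = i.1))
      rw [cpt_single] at h4
      have := Finset.add_mem_add h4 (Finset.neg_mem_neg ha)
      simpa using this
    · intro z hz z' hz' he
      have hz := (Finset.mem_filter.1 (Finset.mem_coe.1 hz)).2
      have hz' := (Finset.mem_filter.1 (Finset.mem_coe.1 hz')).2
      obtain ⟨e1, e20⟩ := Prod.ext_iff.1 he
      have e1 : z.1 = z'.1 := e1
      have e2 : ∀ i, i ≠ i₀ → z.2 i = z'.2 i := fun i hi => congrFun e20 ⟨i, hi⟩
      have e3 : z.2 i₀ = z'.2 i₀ := by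
        refine cpt_inj k z.1 z.2 z'.2 e i₀ hi₀ e2 ?_
        rw [hz, cpt_congr k z.1 z.2 z'.2 e' (fun j hj => e2 j (fun h => by
          rw [h, hi₀'] at hj
          exact absurd hj (by simp))), e1, ← hz']
      refine Prod.ext e1 ?_
      funext i
      by_cases hi : i = i₀
      · rw [hi]; exact e3
      · exact e2 i hi
  refine (Finset.sum_le_card_nsmul _ _ _ h3).trans (le_of_eq ?_)
  rw [Finset.card_univ, smul_eq_mul, Fintype.card_prod, Fintype.card_fun, Fintype.card_fin,
    Fintype.card_bool]

end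

set_option maxHeartbeats 1000000 in
open Classical in
/-- sets of small doubling, all groups -/
theorem base_cube (k s t : ℕ) (hk : 1 ≤ k) (ht : 1 ≤ t) (hs : s ≤ 2 ^ k) (K : ℝ) (hK : 1 ≤ K) :
    ∃ C : ℝ, 0 < C ∧
    ∀ (G V : Type) [AddGroup G] [Fintype G] [DecidableEq G] [Fintype V] (lab : V → G)
      (H : SimpleGraph V) (A : V → Finset G),
      Function.Injective lab → (completeBipartiteGraph (Fin s) (Fin t)).Free H →
      (∀ x, ∀ g ∈ A x, ∃ y, H.Adj x y ∧ lab y = g) →
      (∀ x, ((A x + -(A x)).card : ℝ) ≤ K * (A x).card) →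
      ∑ x, ((A x).card : ℝ) ^ (k + 1) ≤ C * (Fintype.card G : ℝ) ^ (k + 1) := by
  have hK0 : 0 < K := by linarith
  set c : ℝ := 1 / K ^ (2 ^ k - 1 - k) with hc'
  have hc : 0 < c := by positivity
  set I0 : ℝ := (2 ^ k * 2 ^ k) * K ^ (k - 1) with hI0
  have hI0pos : 0 ≤ I0 := by positivity
  refine ⟨2 / c * t + (2 * I0 / c) ^ (k + 1), by positivity, ?_⟩
  intro G V _ _ _ _ lab H A hlab hfree hA hAA
  set Z : Finset (G × (Fin k → G)) := univ.filter fun z => Function.Injective (cpt k z.1 z.2)
    with hZ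
  set F : V → Finset (G × (Fin k → G)) := fun x =>
    Z.filter fun z => ∀ ε : Fin k → Bool, cpt k z.1 z.2 ε ∈ A x with hF
  have hdc : ∑ x, ((F x).card : ℝ) ≤ t * (Fintype.card G : ℝ) ^ (k + 1) := by
    have h1 := double_count Z s t ht (m := Fin k → Bool) (by
      rw [Fintype.card_fun, Fintype.card_fin, Fintype.card_bool]; exact hs)
      (fun z ε => cpt k z.1 z.2 ε) (fun z hz => (Finset.mem_filter.1 hz).2) lab hlab H hfree A hA
    have h1' : ∑ x, (F x).card ≤ (t - 1) * Z.card := by
      convert h1
    have h2 : ∑ x, ((F x).card : ℝ) ≤ (((t - 1) * Z.card : ℕ) : ℝ) := by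
      exact_mod_cast h1'
    refine h2.trans ?_
    have h3 : Z.card ≤ Fintype.card G ^ (k + 1) := by
      refine (Finset.card_le_univ Z).trans (le_of_eq ?_)
      rw [Fintype.card_prod, Fintype.card_fun, Fintype.card_fin, pow_succ, mul_comm]
    have h4 : (t - 1) * Z.card ≤ t * Fintype.card G ^ (k + 1) := Nat.mul_le_mul (by omega) h3
    exact_mod_cast h4
  have hone : ∀ x, ((A x).card : ℝ) ^ (k + 1) ≤
      2 / c * ((F x).card : ℝ) + (2 * I0 / c) ^ (k + 1) := by
    intro x
    rcases (A x).eq_empty_or_nonempty with h | h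
    · have hX0 : ((A x).card : ℝ) = 0 := by rw [h, Finset.card_empty, Nat.cast_zero]
      rw [hX0, zero_pow (by omega)]
      have e1 : (0 : ℝ) ≤ ((F x).card : ℝ) := Nat.cast_nonneg _
      have e2 : (0 : ℝ) ≤ 2 / c := by positivity
      exact add_nonneg (mul_nonneg e2 e1) (by positivity)
    · have hpos : (0 : ℝ) < (A x).card := by exact_mod_cast h.card_pos
      refine absorb k c _ _ I0 hc (Nat.cast_nonneg _) (Nat.cast_nonneg _) hI0pos ?_
      have h1 := card_Cub k (A x + -(A x)) (A x) (Finset.Subset.refl _)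
      have hk2 : k + 1 ≤ 2 ^ k := Nat.lt_two_pow_self
      have h2 : ((A x).card : ℝ) ^ (2 ^ k - 1 - k) * ((A x).card : ℝ) ^ (k + 1) ≤
          ((A x).card : ℝ) ^ (2 ^ k - 1 - k) * (K ^ (2 ^ k - 1 - k) * (Cub k (A x)).card) := by
        calc ((A x).card : ℝ) ^ (2 ^ k - 1 - k) * ((A x).card : ℝ) ^ (k + 1)
            = ((A x).card : ℝ) ^ 2 ^ k := by
              rw [← pow_add]
              congr 1
              omega
          _ ≤ ((A x + -(A x)).card : ℝ) ^ (2 ^ k - 1 - k) * (Cub k (A x)).card := h1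
          _ ≤ (K * (A x).card) ^ (2 ^ k - 1 - k) * (Cub k (A x)).card := by
              refine mul_le_mul_of_nonneg_right ?_ (Nat.cast_nonneg _)
              exact pow_le_pow_left₀ (Nat.cast_nonneg _) (hAA x) _
          _ = _ := by rw [mul_pow]; ring
      have h3 : ((A x).card : ℝ) ^ (k + 1) ≤ K ^ (2 ^ k - 1 - k) * (Cub k (A x)).card :=
        le_of_mul_le_mul_left h2 (by positivity)
      have h4 : c * ((A x).card : ℝ) ^ (k + 1) ≤ (Cub k (A x)).card := by
        rw [hc', div_mul_eq_mul_div, one_mul, div_le_iff₀ (by positivity)]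
        linarith
      have h5 : ((Cub k (A x)).card : ℝ) ≤ (F x).card + I0 * ((A x).card : ℝ) ^ k := by
        have e1 : (Cub k (A x)).card ≤ (F x).card +
            ((Cub k (A x)).filter fun z => ¬ Function.Injective (cpt k z.1 z.2)).card := by
          rw [← Finset.card_filter_add_card_filter_not (s := Cub k (A x))
            (fun z => Function.Injective (cpt k z.1 z.2))]
          refine Nat.add_le_add_right ?_ _
          refine Finset.card_le_card ?_
          intro z hz
          rw [Finset.mem_filter, mem_Cub] at hz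
          rw [hF]
          exact Finset.mem_filter.2 ⟨Finset.mem_filter.2 ⟨Finset.mem_univ _, hz.2⟩, hz.1⟩
        have e2 := improper_cub k (A x)
        have e2' : ((Cub k (A x)).filter fun z => ¬ Function.Injective (cpt k z.1 z.2)).card ≤
            (2 ^ k * 2 ^ k) * ((A x).card * (A x + -(A x)).card ^ (k - 1)) := by
          convert e2
        have e3 : ((Cub k (A x)).card : ℝ) ≤ (F x).card +
            (2 ^ k * 2 ^ k) * ((A x).card * ((A x + -(A x)).card : ℝ) ^ (k - 1)) := by
          exact_mod_cast e1.trans (Nat.add_le_add_left e2' _)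
        refine e3.trans ?_
        have e4 : ((A x + -(A x)).card : ℝ) ^ (k - 1) ≤ (K * (A x).card) ^ (k - 1) :=
          pow_le_pow_left₀ (Nat.cast_nonneg _) (hAA x) _
        have e5 : ((2 : ℝ) ^ k * 2 ^ k) * ((A x).card * ((A x + -(A x)).card : ℝ) ^ (k - 1)) ≤
            I0 * ((A x).card : ℝ) ^ k := by
          calc ((2 : ℝ) ^ k * 2 ^ k) * ((A x).card * ((A x + -(A x)).card : ℝ) ^ (k - 1))
              ≤ ((2 : ℝ) ^ k * 2 ^ k) * ((A x).card * (K * (A x).card) ^ (k - 1)) := by gcongr
            _ = I0 * ((A x).card * ((A x).card : ℝ) ^ (k - 1)) := by rw [hI0, mul_pow]; ring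
            _ = I0 * ((A x).card : ℝ) ^ k := by
              rw [← pow_succ', Nat.sub_add_cancel hk]
        linarith
      linarith
  have hV : (Fintype.card V : ℝ) ≤ (Fintype.card G : ℝ) ^ (k + 1) := by
    have h1 : Fintype.card V ≤ Fintype.card G := Fintype.card_le_of_injective lab hlab
    have h2 : Fintype.card G ≤ Fintype.card G ^ (k + 1) := Nat.le_self_pow (by omega) _
    exact_mod_cast h1.trans h2
  calc ∑ x, ((A x).card : ℝ) ^ (k + 1)
      ≤ ∑ x, (2 / c * ((F x).card : ℝ) + (2 * I0 / c) ^ (k + 1)) :=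
        Finset.sum_le_sum fun x _ => hone x
    _ = 2 / c * ∑ x, ((F x).card : ℝ) + Fintype.card V * (2 * I0 / c) ^ (k + 1) := by
        rw [Finset.sum_add_distrib, ← Finset.mul_sum, Finset.sum_const, nsmul_eq_mul,
          Finset.card_univ]
    _ ≤ 2 / c * (t * (Fintype.card G : ℝ) ^ (k + 1)) +
        (Fintype.card G : ℝ) ^ (k + 1) * (2 * I0 / c) ^ (k + 1) := by
        refine add_le_add ?_ ?_
        · exact mul_le_mul_of_nonneg_left hdc (by positivity)
        · exact mul_le_mul_of_nonneg_right hV (by positivity)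
    _ = _ := by ring

end Run7.h50.EN
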