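import Mathlib
import Pool.Agent.Run7.h50.EN.NCube

/-!
# Parts of large multiplicative energy of the neighbourhoods
-/

set_option autoImplicit false
set_option linter.unusedSectionVars false
set_option linter.unusedVariables false

namespace Run7.h50.EN

open Finset
open scoped Pointwise

/-- the bound for sets of small doubling -/
def Base (s t e P : ℕ) (K C : ℝ) : Prop :=
  ∀ (G V : Type) [AddGroup G] [Fintype G] [DecidableEq G] [Fintype V] (lab : V → G)
    (H : SimpleGraph V) (A : V → Finset G),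
    (∀ (g : G) (j : ℕ), 0 < j → j < P → j • g = 0 → g = 0) →
    Function.Injective lab → (completeBipartiteGraph (Fin s) (Fin t)).Free H →
    (∀ x, ∀ g ∈ A x, ∃ y, H.Adj x y ∧ lab y = g) →
    (∀ x, ((A x + -(A x)).card : ℝ) ≤ K * (A x).card) →
    ∑ x, ((A x).card : ℝ) ^ e ≤ C * (Fintype.card G : ℝ) ^ e

/-- one-sided energy -/
def En1 (s t e P : ℕ) (K C : ℝ) : Prop :=
  ∀ (G V : Type) [AddGroup G] [Fintype G] [DecidableEq G] [Fintype V] (lab : V → G)
    (H : SimpleGraph V) (A : V → Finset V),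
    (∀ (g : G) (j : ℕ), 0 < j → j < P → j • g = 0 → g = 0) →
    Function.Injective lab → (completeBipartiteGraph (Fin s) (Fin t)).Free H →
    (∀ x, ∀ y ∈ A x, H.Adj x y) →
    (∀ x, ∃ T : Finset G, T.card = (A x).card ∧
      ((A x).card : ℝ) ^ 3 ≤ K * (((A x).image lab).addEnergy T : ℕ)) →
    ∑ x, ((A x).card : ℝ) ^ e ≤ C * (Fintype.card G : ℝ) ^ e

theorem En1_of_Base (s t e P : ℕ) (K C : ℝ) (hK : 0 < K) (hC : 0 ≤ C)
    (h : Base s t e P (max 1 (2 ^ 22 * K ^ 10)) C) : En1 s t e P K ((8 * K) ^ e * C) := by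
  intro G V _ _ _ _ lab H A hG hlab hfree hA hE
  classical
  have hcard : ∀ x, ((A x).image lab).card = (A x).card := fun x =>
    Finset.card_image_of_injective _ hlab
  have hB : ∀ x, ∃ B : Finset G, B ⊆ (A x).image lab ∧ ((A x).card : ℝ) ≤ 8 * K * B.card ∧
      ((B + -B).card : ℝ) ≤ (max 1 (2 ^ 22 * K ^ 10)) * B.card := by
    intro x
    rcases (A x).eq_empty_or_nonempty with h | h
    · refine ⟨∅, Finset.empty_subset _, ?_, ?_⟩
      · rw [h]; simp
      · simp
    · obtain ⟨T, hT1, hT2⟩ := hE x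
      obtain ⟨B, hB1, hB2, hB3, hB4⟩ := nbsg ((A x).image lab) T (h.image lab)
        (by rw [hcard]; exact hT1) K hK (by rw [hcard]; exact hT2)
      rw [hcard] at hB3
      refine ⟨B, hB1, hB3, ?_⟩
      rw [← sub_eq_add_neg]
      refine hB4.trans ?_
      exact mul_le_mul_of_nonneg_right (le_max_right _ _) (Nat.cast_nonneg _)
  choose B hB1 hB2 hB3 using hB
  have h1 := h G V lab H B hG hlab hfree (fun x g hg => by
    obtain ⟨y, hy, hyg⟩ := Finset.mem_image.1 (hB1 x hg)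
    exact ⟨y, hA x y hy, hyg⟩) hB3
  calc ∑ x, ((A x).card : ℝ) ^ e ≤ ∑ x, (8 * K) ^ e * ((B x).card : ℝ) ^ e := by
        refine Finset.sum_le_sum fun x _ => ?_
        rw [← mul_pow]
        exact pow_le_pow_left₀ (Nat.cast_nonneg _) (hB2 x) _
    _ = (8 * K) ^ e * ∑ x, ((B x).card : ℝ) ^ e := by rw [Finset.mul_sum]
    _ ≤ (8 * K) ^ e * (C * (Fintype.card G : ℝ) ^ e) := by gcongr
    _ = _ := by ring

theorem energy_neg {G : Type} [AddGroup G] [DecidableEq G] (T S : Finset G) :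
    T.addEnergy S ≤ (-S).addEnergy (-T) := by
  unfold Finset.addEnergy
  refine Finset.card_le_card_of_injOn (fun z => ((-z.2.1, -z.2.2), (-z.1.1, -z.1.2))) ?_ ?_
  · intro z hz
    have hz := Finset.mem_coe.1 hz
    rw [Finset.mem_filter] at hz
    obtain ⟨h1, h2⟩ := hz
    simp only [Finset.mem_product] at h1
    refine Finset.mem_coe.2 (Finset.mem_filter.2 ⟨?_, ?_⟩)
    · simp only [Finset.mem_product]
      exact ⟨⟨Finset.neg_mem_neg h1.2.1, Finset.neg_mem_neg h1.2.2⟩,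
        Finset.neg_mem_neg h1.1.1, Finset.neg_mem_neg h1.1.2⟩
    · simp only
      rw [← neg_add_rev, ← neg_add_rev, h2]
  · intro z _ z' _ h
    obtain ⟨e1, e2⟩ := Prod.ext_iff.1 h
    obtain ⟨e3, e4⟩ := Prod.ext_iff.1 e1
    obtain ⟨e5, e6⟩ := Prod.ext_iff.1 e2
    exact Prod.ext (Prod.ext (neg_injective e5) (neg_injective e6))
      (Prod.ext (neg_injective e3) (neg_injective e4))

/-- two-sided energy -/
theorem En2 (s t e P : ℕ) (K C : ℝ) (hK : 0 < K) (he : 1 ≤ e) (h : En1 s t e P K C)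
    (G V : Type) [AddGroup G] [Fintype G] [DecidableEq G] [Fintype V] (lab : V → G)
    (H : SimpleGraph V) (A : V → Finset V)
    (hG : ∀ (g : G) (j : ℕ), 0 < j → j < P → j • g = 0 → g = 0)
    (hlab : Function.Injective lab) (hfree : (completeBipartiteGraph (Fin s) (Fin t)).Free H)
    (hA : ∀ x, ∀ y ∈ A x, H.Adj x y)
    (hE : ∀ x, ∃ T : Finset G, T.card = (A x).card ∧
      (((A x).card : ℝ) ^ 3 ≤ K * (((A x).image lab).addEnergy T : ℕ) ∨
        ((A x).card : ℝ) ^ 3 ≤ K * (T.addEnergy ((A x).image lab) : ℕ))) :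
    ∑ x, ((A x).card : ℝ) ^ e ≤ 2 * C * (Fintype.card G : ℝ) ^ e := by
  classical
  set p : V → Prop := fun x => ∃ T : Finset G, T.card = (A x).card ∧
      ((A x).card : ℝ) ^ 3 ≤ K * (((A x).image lab).addEnergy T : ℕ) with hp
  set A₁ : V → Finset V := fun x => if p x then A x else ∅ with hA₁
  set A₂ : V → Finset V := fun x => if p x then ∅ else A x with hA₂
  have hzero : ∀ T : Finset G, T.card = (∅ : Finset V).card ∧
      (((∅ : Finset V).card : ℕ) : ℝ) ^ 3 ≤ K * (((∅ : Finset V).image lab).addEnergy (∅ : Finset G) : ℕ) ∨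
      True := fun _ => Or.inr trivial
  have h1 := h G V lab H A₁ hG hlab hfree (fun x y hy => by
      simp only [hA₁] at hy
      split_ifs at hy with hx
      · exact hA x y hy
      · exact absurd hy (by simp)) (fun x => by
      simp only [hA₁]
      split_ifs with hx
      · exact hx
      · refine ⟨∅, by simp, ?_⟩
        rw [Finset.card_empty, Nat.cast_zero, zero_pow (by norm_num)]
        positivity)
  have h2 := h G V (fun y => -lab y) H A₂ hG (fun a b hab => hlab (neg_injective hab)) hfree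
    (fun x y hy => by
      simp only [hA₂] at hy
      split_ifs at hy with hx
      · exact absurd hy (by simp)
      · exact hA x y hy) (fun x => by
      simp only [hA₂]
      split_ifs with hx
      · refine ⟨∅, by simp, ?_⟩
        rw [Finset.card_empty, Nat.cast_zero, zero_pow (by norm_num)]
        positivity
      · obtain ⟨T, hT1, hT2⟩ := hE x
        have hT3 : ((A x).card : ℝ) ^ 3 ≤ K * (T.addEnergy ((A x).image lab) : ℕ) := by
          rcases hT2 with hT2 | hT2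
          · exact absurd ⟨T, hT1, hT2⟩ hx
          · exact hT2
        refine ⟨-T, by rw [Finset.card_neg]; exact hT1, hT3.trans ?_⟩
        refine mul_le_mul_of_nonneg_left ?_ hK.le
        have e1 : (A x).image (fun y => -lab y) = -((A x).image lab) := by
          ext g
          simp only [Finset.mem_image, Finset.mem_neg]
          constructor
          · rintro ⟨y, hy, rfl⟩
            exact ⟨lab y, ⟨y, hy, rfl⟩, rfl⟩
          · rintro ⟨g', ⟨y, hy, rfl⟩, rfl⟩
            exact ⟨y, hy, rfl⟩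
        rw [e1]
        exact_mod_cast energy_neg T ((A x).image lab))
  have h3 : ∀ x, ((A x).card : ℝ) ^ e = ((A₁ x).card : ℝ) ^ e + ((A₂ x).card : ℝ) ^ e := by
    intro x
    simp only [hA₁, hA₂]
    split_ifs
    · rw [Finset.card_empty, Nat.cast_zero, zero_pow (by omega), add_zero]
    · rw [Finset.card_empty, Nat.cast_zero, zero_pow (by omega), zero_add]
  rw [Finset.sum_congr rfl fun x _ => h3 x, Finset.sum_add_distrib]
  linarith

/-- the set `S` of size `N` has at least `N^3 / K` solutions of `s t = s' t'` (or `t s = t' s'`) with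
some set `T` of the same size -/
def Structured {Γ : Type} [Group Γ] [DecidableEq Γ] (K : ℝ) (S : Finset Γ) : Prop :=
  ∃ T : Finset Γ, T.card = S.card ∧
    ((S.card : ℝ) ^ 3 ≤ K * (S.mulEnergy T : ℕ) ∨ (S.card : ℝ) ^ 3 ≤ K * (T.mulEnergy S : ℕ))

theorem energy_ofMul {Γ : Type} [Group Γ] [DecidableEq Γ] (S T : Finset Γ) :
    S.mulEnergy T ≤ (S.image (Additive.ofMul : Γ → Additive Γ)).addEnergy
      (T.image (Additive.ofMul : Γ → Additive Γ)) := by
  unfold Finset.addEnergy Finset.mulEnergy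
  refine Finset.card_le_card_of_injOn (fun z => ((Additive.ofMul z.1.1, Additive.ofMul z.1.2),
    (Additive.ofMul z.2.1, Additive.ofMul z.2.2))) ?_ ?_
  · intro z hz
    have hz := Finset.mem_coe.1 hz
    rw [Finset.mem_filter] at hz
    obtain ⟨h1, h2⟩ := hz
    simp only [Finset.mem_product] at h1
    refine Finset.mem_coe.2 (Finset.mem_filter.2 ⟨?_, ?_⟩)
    · simp only [Finset.mem_product]
      exact ⟨⟨Finset.mem_image_of_mem _ h1.1.1, Finset.mem_image_of_mem _ h1.1.2⟩,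
        Finset.mem_image_of_mem _ h1.2.1, Finset.mem_image_of_mem _ h1.2.2⟩
    · simp only
      rw [← ofMul_mul, ← ofMul_mul, h2]
  · intro z _ z' _ h
    obtain ⟨e1, e2⟩ := Prod.ext_iff.1 h
    obtain ⟨e3, e4⟩ := Prod.ext_iff.1 e1
    obtain ⟨e5, e6⟩ := Prod.ext_iff.1 e2
    exact Prod.ext (Prod.ext (Additive.ofMul.injective e3) (Additive.ofMul.injective e4))
      (Prod.ext (Additive.ofMul.injective e5) (Additive.ofMul.injective e6))

/-- the two-sided statement in multiplicative form -/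
theorem En2_mul (s t e P : ℕ) (K C : ℝ) (hK : 0 < K) (he : 1 ≤ e) (h : En1 s t e P K C)
    (Γ V : Type) [Group Γ] [Fintype Γ] [DecidableEq Γ] [Fintype V] (lab : V → Γ)
    (H : SimpleGraph V) (A : V → Finset V)
    (hG : ∀ (g : Γ) (j : ℕ), 0 < j → j < P → g ^ j = 1 → g = 1)
    (hlab : Function.Injective lab) (hfree : (completeBipartiteGraph (Fin s) (Fin t)).Free H)
    (hA : ∀ x, ∀ y ∈ A x, H.Adj x y) (hE : ∀ x, Structured K ((A x).image lab)) :
    ∑ x, ((A x).card : ℝ) ^ e ≤ 2 * C * (Fintype.card Γ : ℝ) ^ e := by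
  classical
  have hcard : ∀ x, ((A x).image lab).card = (A x).card := fun x =>
    Finset.card_image_of_injective _ hlab
  have h1 := En2 s t e P K C hK he h (Additive Γ) V (fun y => Additive.ofMul (lab y)) H A
    (fun g j h0 hj hg => by
      have h2 : (Additive.toMul g) ^ j = 1 := hg
      have h3 := hG (Additive.toMul g) j h0 hj h2
      exact h3)
    (fun a b hab => hlab (Additive.ofMul.injective hab)) hfree hA (fun x => by
      obtain ⟨T, hT1, hT2⟩ := hE x
      rw [hcard] at hT1 hT2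
      refine ⟨T.image (Additive.ofMul : Γ → Additive Γ), ?_, ?_⟩
      · rw [Finset.card_image_of_injective _ Additive.ofMul.injective]; exact hT1
      have e1 : (A x).image (fun y => Additive.ofMul (lab y)) =
          ((A x).image lab).image (Additive.ofMul : Γ → Additive Γ) := by
        rw [Finset.image_image]; rfl
      rw [e1]
      rcases hT2 with hT2 | hT2
      · left
        refine hT2.trans (mul_le_mul_of_nonneg_left ?_ hK.le)
        exact_mod_cast energy_ofMul _ _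
      · right
        refine hT2.trans (mul_le_mul_of_nonneg_left ?_ hK.le)
        exact_mod_cast energy_ofMul _ _)
  have h2 : Fintype.card (Additive Γ) = Fintype.card Γ := Fintype.card_congr Additive.toMul
  rw [h2] at h1
  exact h1

/-- all groups -/
theorem main_cube (k s t : ℕ) (hk : 1 ≤ k) (ht : 1 ≤ t) (hs : s ≤ 2 ^ k) (K : ℝ) (hK : 0 < K) :
    ∃ C : ℝ, 0 < C ∧
    ∀ (Γ V : Type) [Group Γ] [Fintype Γ] [DecidableEq Γ] [Fintype V] (lab : V → Γ)
      (H : SimpleGraph V) (A : V → Finset V),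
      Function.Injective lab → (completeBipartiteGraph (Fin s) (Fin t)).Free H →
      (∀ x, ∀ y ∈ A x, H.Adj x y) → (∀ x, Structured K ((A x).image lab)) →
      ∑ x, ((A x).card : ℝ) ^ (k + 1) ≤ C * (Fintype.card Γ : ℝ) ^ (k + 1) := by
  obtain ⟨C, hC, h⟩ := base_cube k s t hk ht hs (max 1 (2 ^ 22 * K ^ 10)) (le_max_left _ _)
  have hb : Base s t (k + 1) 0 (max 1 (2 ^ 22 * K ^ 10)) C := by
    intro G V _ _ _ _ lab H A _ hlab hfree hA hAA
    exact h G V lab H A hlab hfree hA hAA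
  have h1 := En1_of_Base s t (k + 1) 0 K C hK hC.le hb
  refine ⟨2 * ((8 * K) ^ (k + 1) * C), by positivity, ?_⟩
  intro Γ V _ _ _ _ lab H A hlab hfree hA hE
  exact En2_mul s t (k + 1) 0 K _ hK (by omega) h1 Γ V lab H A
    (fun g j _ hj _ => absurd hj (Nat.not_lt_zero _)) hlab hfree hA hE

/-- groups without small torsion -/
theorem main_prog (s t : ℕ) (ht : 1 ≤ t) (K : ℝ) (hK : 0 < K) :
    ∃ (P : ℕ) (C : ℝ), 0 < C ∧
    ∀ (Γ V : Type) [Group Γ] [Fintype Γ] [DecidableEq Γ] [Fintype V] (lab : V → Γ)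
      (H : SimpleGraph V) (A : V → Finset V),
      (∀ (g : Γ) (j : ℕ), 0 < j → j < P → g ^ j = 1 → g = 1) →
      Function.Injective lab → (completeBipartiteGraph (Fin s) (Fin t)).Free H →
      (∀ x, ∀ y ∈ A x, H.Adj x y) → (∀ x, Structured K ((A x).image lab)) →
      ∑ x, ((A x).card : ℝ) ^ 2 ≤ C * (Fintype.card Γ : ℝ) ^ 2 := by
  obtain ⟨P, C, hC, h⟩ := base_prog s t ht (max 1 (2 ^ 22 * K ^ 10)) (le_max_left _ _)
  have hb : Base s t 2 P (max 1 (2 ^ 22 * K ^ 10)) C := by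
    intro G V _ _ _ _ lab H A hG hlab hfree hA hAA
    exact h G V lab H A hG hlab hfree hA hAA
  have h1 := En1_of_Base s t 2 P K C hK hC.le hb
  refine ⟨P, 2 * ((8 * K) ^ 2 * C), by positivity, ?_⟩
  intro Γ V _ _ _ _ lab H A hG hlab hfree hA hE
  exact En2_mul s t 2 P K _ hK (by omega) h1 Γ V lab H A hG hlab hfree hA hE

theorem power_mean {V : Type} [Fintype V] (a : V → ℝ) (ha : ∀ x, 0 ≤ a x) (k : ℕ) :
    (∑ x, a x) ^ (k + 1) ≤ (Fintype.card V : ℝ) ^ k * ∑ x, a x ^ (k + 1) := by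
  classical
  rcases isEmpty_or_nonempty V with h | h
  · simp
  · have h1 := pow_sum_div_card_le_sum_pow (s := (Finset.univ : Finset V)) (f := a)
      (fun x _ => ha x) k
    rw [div_le_iff₀ (by
      rw [Finset.card_univ]
      have : 0 < Fintype.card V := Fintype.card_pos
      positivity), Finset.card_univ] at h1
    linarith

/-- from the moment bound to a share of the edges -/
theorem share (k s : ℕ) (C D c₀ : ℝ) (hC : 0 < C) (hD : 0 < D) (hc₀ : 0 < c₀) :
    ∃ C' : ℝ, 0 < C' ∧ ∀ (n : ℕ) (a : Fin n → ℝ) (g e : ℝ), 1 ≤ n → 0 ≤ g → g ≤ D * n →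
      (∀ x, 0 ≤ a x) → ∑ x, a x ^ (k + 1) ≤ C * g ^ (k + 1) →
      c₀ * (n : ℝ) ^ (2 - 1 / (s : ℝ)) ≤ e →
      ∑ x, a x ≤ C' * (n : ℝ) ^ (-(1 / ((k : ℝ) + 1) - 1 / (s : ℝ))) * e := by
  set C₂ : ℝ := C * D ^ (k + 1) + 1 with hC₂
  have hC₂1 : 1 ≤ C₂ := by
    have : 0 ≤ C * D ^ (k + 1) := by positivity
    linarith
  have hC₂0 : 0 < C₂ := by linarith
  refine ⟨C₂ / c₀, by positivity, ?_⟩
  intro n a g e hn hg0 hg ha h1 hE
  set S : ℝ := ∑ x, a x with hS
  have hS0 : 0 ≤ S := Finset.sum_nonneg fun x _ => ha x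
  have hn0 : (0 : ℝ) < n := by exact_mod_cast hn
  have hk1 : (0 : ℝ) < (k : ℝ) + 1 := by positivity
  have h2 : S ^ (k + 1) ≤ C * ((n : ℝ) ^ k * g ^ (k + 1)) := by
    have := power_mean a ha k
    rw [Fintype.card_fin] at this
    refine this.trans ?_
    calc (n : ℝ) ^ k * ∑ x, a x ^ (k + 1) ≤ (n : ℝ) ^ k * (C * g ^ (k + 1)) :=
          mul_le_mul_of_nonneg_left h1 (by positivity)
      _ = _ := by ring
  have h3 : S ^ (k + 1) ≤ (C₂ * (n : ℝ) ^ (2 - 1 / ((k : ℝ) + 1))) ^ (k + 1) := by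
    have e1 : ((n : ℝ) ^ (2 - 1 / ((k : ℝ) + 1))) ^ (k + 1) = (n : ℝ) ^ (2 * k + 1) := by
      rw [← Real.rpow_mul_natCast hn0.le, ← Real.rpow_natCast]
      congr 1
      push_cast
      field_simp
      ring
    calc S ^ (k + 1) ≤ C * ((n : ℝ) ^ k * g ^ (k + 1)) := h2
      _ ≤ C * ((n : ℝ) ^ k * (D * n) ^ (k + 1)) := by gcongr
      _ = (C * D ^ (k + 1)) * (n : ℝ) ^ (2 * k + 1) := by rw [mul_pow]; ring
      _ ≤ C₂ ^ (k + 1) * (n : ℝ) ^ (2 * k + 1) := by
        refine mul_le_mul_of_nonneg_right ?_ (by positivity)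
        calc C * D ^ (k + 1) ≤ C₂ := by rw [hC₂]; linarith
          _ ≤ C₂ ^ (k + 1) := le_self_pow₀ hC₂1 (by omega)
      _ = _ := by rw [mul_pow, e1]
  have h4 : S ≤ C₂ * (n : ℝ) ^ (2 - 1 / ((k : ℝ) + 1)) :=
    (pow_le_pow_iff_left₀ hS0 (by positivity) (by omega)).1 h3
  have h5 : (n : ℝ) ^ (2 - 1 / ((k : ℝ) + 1)) =
      (n : ℝ) ^ (-(1 / ((k : ℝ) + 1) - 1 / (s : ℝ))) * (n : ℝ) ^ (2 - 1 / (s : ℝ)) := by
    rw [← Real.rpow_add hn0]
    congr 1
    ring
  have h6 : (n : ℝ) ^ (2 - 1 / (s : ℝ)) ≤ e / c₀ := by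
    rw [le_div_iff₀ hc₀]
    linarith
  calc S ≤ C₂ * (n : ℝ) ^ (2 - 1 / ((k : ℝ) + 1)) := h4
    _ = C₂ * ((n : ℝ) ^ (-(1 / ((k : ℝ) + 1) - 1 / (s : ℝ))) * (n : ℝ) ^ (2 - 1 / (s : ℝ))) := by
        rw [h5]
    _ ≤ C₂ * ((n : ℝ) ^ (-(1 / ((k : ℝ) + 1) - 1 / (s : ℝ))) * (e / c₀)) := by
        gcongr
    _ = _ := by ring

end Run7.h50.EN
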